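import Pool.Agent.Run7.h762.SC.Span

/-!
# Planes and scroll classes which span the rational Hodge classes
-/

set_option autoImplicit false

namespace Pool.Agent.Run7.h762.SC

open Finset Module Pool.Agent.Y95.Q Pool.Agent.Y95.Q.H4

variable {X : CubicFourfold} {H : H4 X}

/-- if all discriminants are divisible by four, then the rank is at most twelve -/
theorem rank_le (hH : H.IsCohomology) (h4 : ∀ v, H.IsHodge v → 4 ∣ H.disc v) :
    H.rank ≤ 12 := by
  classical
  by_contra hcon
  push Not at hcon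
  have hB : ∀ v w, H.IsHodge v → H.IsHodge w → Bf H v w % 2 = 0 := by
    intro v w hv hw
    have h1 := h4 _ (H.isHodge_add hv hw)
    have h2 := h4 v hv
    have h3 := h4 w hw
    have e := disc_add_smul hH v w 1
    rw [one_smul] at e
    omega
  rw [rank_eq] at hcon
  let b := Module.finBasis ℤ H.hodge
  -- a basis element with odd degree
  obtain ⟨i0, hi0⟩ : ∃ i0, H.ip (b i0 : Fin 23 → ℤ) H.h % 2 = 1 := by
    by_contra hno
    push Not at hno
    have hall : ∀ x : H.hodge, H.ip (x : Fin 23 → ℤ) H.h % 2 = 0 := by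
      intro x
      rw [← b.sum_repr x, Submodule.coe_sum, ip_sum_left]
      apply Int.emod_eq_zero_of_dvd
      refine Finset.dvd_sum fun i _ => ?_
      rw [Submodule.coe_smul, ip_smul_left]
      have : (2 : ℤ) ∣ H.ip (b i : Fin 23 → ℤ) H.h := by
        have := hno i
        omega
      exact this.mul_left _
    have := hall ⟨H.h, hH.h_hodge⟩
    change H.ip H.h H.h % 2 = 0 at this
    rw [hH.h_self] at this
    norm_num at this
  let r := finrank ℤ H.hodge
  let g : {j : Fin r // j ≠ i0} → Fin 23 → ℤ := fun j =>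
    (b j.1 : Fin 23 → ℤ) - H.ip (b j.1 : Fin 23 → ℤ) H.h • (b i0 : Fin 23 → ℤ)
  have hgH : ∀ j, H.IsHodge (g j) := fun j =>
    H.isHodge_sub (b j.1).2 (H.isHodge_smul _ (b i0).2)
  have hgh : ∀ j, H.ip (g j) H.h % 2 = 0 := by
    intro j
    have e : H.ip (g j) H.h = H.ip (b j.1 : Fin 23 → ℤ) H.h -
        H.ip (b j.1 : Fin 23 → ℤ) H.h * H.ip (b i0 : Fin 23 → ℤ) H.h := by
      rw [ip_sub_left, ip_smul_left]
    obtain ⟨k, hk⟩ : ∃ k, H.ip (b i0 : Fin 23 → ℤ) H.h = 2 * k + 1 :=
      ⟨H.ip (b i0 : Fin 23 → ℤ) H.h / 2, by omega⟩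
    rw [e, hk]
    have : H.ip (b j.1 : Fin 23 → ℤ) H.h - H.ip (b j.1 : Fin 23 → ℤ) H.h * (2 * k + 1) =
        2 * (-(H.ip (b j.1 : Fin 23 → ℤ) H.h * k)) := by ring
    rw [this]
    omega
  have hcard : Fintype.card {j : Fin r // j ≠ i0} = r - 1 := by
    rw [Fintype.card_subtype_compl, Fintype.card_fin, Fintype.card_subtype_eq]
  refine hH.count (ι := {j : Fin r // j ≠ i0}) (κ := Fin r) (g := g)
    (f := fun i => (b i : Fin 23 → ℤ)) ?_ (fun i => (b i).2) ?_ ?_ ?_
  · rw [hcard, Fintype.card_fin]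
    have : 12 < r := hcon
    omega
  · have := b.linearIndependent.map' H.hodge.subtype (by
      rw [Submodule.ker_subtype])
    exact this
  · intro j T hT
    have h1 := hB T (g j) hT (hgH j)
    have h2 := hgh j
    unfold Bf at h1
    rw [Int.even_iff]
    obtain ⟨k, hk⟩ := Int.dvd_of_emod_eq_zero h2
    rw [hk] at h1
    have e : H.ip T H.h * (2 * k) = 2 * (H.ip T H.h * k) := by ring
    rw [e] at h1
    omega
  · rintro ε ⟨v, hv⟩ j
    have hvH : H.IsHodge v := H.isHodge_of_smul two_ne_zero (by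
      rw [← hv]
      exact H.isHodge_sum _ _ fun j _ => H.isHodge_smul _ (hgH j))
    let v' : H.hodge := ⟨v, hvH⟩
    have e1 : ∑ j : {j : Fin r // j ≠ i0}, ε j • (b j.1 -
        H.ip (b j.1 : Fin 23 → ℤ) H.h • b i0) = (2 : ℤ) • v' := by
      apply Subtype.ext
      rw [Submodule.coe_sum, Submodule.coe_smul]
      exact hv
    have e2 := congrArg (fun x => b.repr x j.1) e1
    simp only [map_sum, map_smul, map_sub, Finsupp.coe_finsetSum, Finset.sum_apply,
      Finsupp.smul_apply, Finsupp.sub_apply, Basis.repr_self, smul_eq_mul,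
      Finsupp.single_apply] at e2
    rw [Finset.sum_eq_single j] at e2
    · rw [if_pos rfl, if_neg (fun h => j.2 h.symm)] at e2
      exact ⟨b.repr v' j.1, by linarith⟩
    · intro k _ hk
      rw [if_neg (fun h => hk (Subtype.ext h)), if_neg (fun h => j.2 h.symm)]
      ring
    · intro h
      exact absurd (mem_univ _) h

namespace Ctx

/-- a plane, a scroll class, and a class of discriminant less than forty -/
theorem pl_scroll (c : Ctx H) {P : Fin 23 → ℤ} (hP : H.IsPl P) {s w : Fin 23 → ℤ}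
    (hs : Scroll H s) (hw : H.IsHodge w) (hd : H.disc w < 40) :
    4 ∣ H.disc w ∧ Bf H s w % 2 = 0 := by
  have h1 := c.d hw
  have h2 := c.pl_two hP hw
  refine ⟨by omega, ?_⟩
  have e1 := disc_add_smul c.hH w s 1
  have e2 := disc_add_smul c.hH w s (-1)
  have e3 : Bf H w s = 3 * H.ip s w := by rw [Bf_comm c.hH, Bf_scroll hs]
  have e4 : Bf H s w = 3 * H.ip s w := Bf_scroll hs w
  rw [e3, disc_scroll c.hH hs] at e1 e2
  have h3 := c.pl_two hP (H.isHodge_add hw (H.isHodge_smul 1 hs.1))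
  have h4 := c.pl_two hP (H.isHodge_add hw (H.isHodge_smul (-1) hs.1))
  rw [e1] at h3
  rw [e2] at h4
  rw [e4]
  omega

end Ctx

/-- products with all classes from products with the generators and small classes -/
theorem Bf_of_reduce (hH : H.IsCohomology) {n : ℕ} {t : Fin n → Fin 23 → ℤ}
    {s w y : Fin 23 → ℤ} {k : Fin n → ℤ} (hw : w = y - ∑ i, k i • t i)
    (h1 : Bf H s w % 2 = 0) (h2 : ∀ i, Bf H s (t i) % 2 = 0) : Bf H s y % 2 = 0 := by
  have e : y = w + ∑ i, k i • t i := by rw [hw]; abel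
  rw [e, Bf_add_right hH]
  have h3 : (2 : ℤ) ∣ Bf H s (∑ i, k i • t i) := by
    have : Bf H s (∑ i, k i • t i) = ∑ i, k i * Bf H s (t i) := by
      unfold Bf
      rw [ip_sum_right, ip_sum_left]
      simp only [ip_smul_right, ip_smul_left]
      rw [mul_sum, mul_sum, ← sum_sub_distrib]
      exact Finset.sum_congr rfl fun i _ => by ring
    rw [this]
    exact Finset.dvd_sum fun i _ => (Int.dvd_of_emod_eq_zero (h2 i)).mul_left _
  omega

/-- **Planes and scroll classes span.** -/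
theorem planes_scrolls_span (hH : H.IsCohomology) (hR : KnownRat H)
    (hP : Nonempty X.Plane) (hspan : SpansBy H {x | H.IsPl x ∨ Scroll H x})
    (hr : H.rank ≤ 14) : Good H ∨ ∀ v, H.IsHodge v → 4 ∣ H.disc v := by
  by_contra hcon
  push Not at hcon
  obtain ⟨hbad, v, hv, hv4⟩ := hcon
  have c : Ctx H := ⟨hH, hR, hbad⟩
  obtain ⟨P'⟩ := hP
  have hP : H.IsPl (H.cl P') := (hH.cl_range _).1 ⟨P', rfl⟩
  have hSH : ∀ x ∈ {x | H.IsPl x ∨ Scroll H x}, H.IsHodge x := by
    rintro x (h | h)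
    · exact h.1
    · exact h.1
  obtain ⟨n, t, ht, hnr, -, hb⟩ := exists_basis hH hSH hspan
  have htH : ∀ i, H.IsHodge (t i) := fun i => hSH _ (ht i)
  have htd : ∀ i, H.disc (t i) ≤ 12 := by
    intro i
    rcases ht i with h | h
    · rw [disc_pl hH h]
      norm_num
    · rw [disc_scroll hH h]
  have hsum : ∑ i, H.disc (t i) ≤ 12 * n := by
    have := Finset.sum_le_card_nsmul univ (fun i => H.disc (t i)) 12 fun i _ => htd i
    simp only [card_univ, Fintype.card_fin, nsmul_eq_mul] at this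
    linarith
  have hn : (n : ℤ) ≤ 13 := by
    have : n ≤ 13 := by omega
    exact_mod_cast this
  have pair : ∀ s x, Scroll H s → (H.IsPl x ∨ Scroll H x) → Bf H s x % 2 = 0 := by
    rintro s x hs (h | h)
    · rw [Bf_comm hH]
      exact c.Bf_plane h hs.1
    · exact c.pl_odd hP hs.1 h.1 (Or.inl (disc_scroll hH hs)) (Or.inl (disc_scroll hH h))
  have red : ∀ y, H.IsHodge y → ∃ k : Fin n → ℤ, H.disc (y - ∑ i, k i • t i) < 40 := by
    intro y hy
    obtain ⟨k, hk⟩ := reduce hH htH (hb y hy)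
    exact ⟨k, by omega⟩
  have all : ∀ s y, Scroll H s → H.IsHodge y → Bf H s y % 2 = 0 := by
    intro s y hs hy
    obtain ⟨k, hk⟩ := red y hy
    exact Bf_of_reduce hH rfl
      (c.pl_scroll hP hs (H.isHodge_sub hy (H.isHodge_sum _ _ fun i _ =>
        H.isHodge_smul _ (htH i))) hk).2 fun i => pair s (t i) hs (ht i)
  have hrad : ∀ i, Rad H (t i) := by
    intro i
    rcases ht i with h | h
    · exact ⟨by rw [disc_pl hH h]; norm_num, fun y hy => c.Bf_plane h hy⟩
    · exact ⟨by rw [disc_scroll hH h]; norm_num, fun y hy => all _ y h hy⟩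
  obtain ⟨k, hk⟩ := red v hv
  set s := ∑ i, k i • t i with hs
  have hsH : H.IsHodge s := H.isHodge_sum _ _ fun i _ => H.isHodge_smul _ (htH i)
  have hw : H.IsHodge (v - s) := H.isHodge_sub hv hsH
  have hw4 : 4 ∣ H.disc (v - s) := by
    have h1 := c.d hw
    have h2 := c.pl_two hP hw
    omega
  have := disc_mod_of_rad hH hw (Rad.sum hH k hrad htH) hw4
  rw [← hs, sub_add_cancel] at this
  exact hv4 this

/-- combinations from the generated group -/
theorem of_closure {n : ℕ} {t : Fin n → Fin 23 → ℤ} {v : Fin 23 → ℤ}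
    (hv : v ∈ AddSubgroup.closure (insert H.h (Set.range t))) :
    ∃ (c0 : ℤ) (c : Fin n → ℤ), v = c0 • H.h + ∑ i, c i • t i := by
  classical
  induction hv using AddSubgroup.closure_induction with
  | mem x hx =>
    rcases hx with rfl | ⟨i, rfl⟩
    · exact ⟨1, 0, by simp⟩
    · refine ⟨0, Pi.single i 1, ?_⟩
      rw [zero_smul, zero_add, Finset.sum_eq_single i]
      · rw [Pi.single_eq_same, one_smul]
      · intro j _ hj
        rw [Pi.single_eq_of_ne hj, zero_smul]
      · intro h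
        exact absurd (mem_univ _) h
  | zero => exact ⟨0, 0, by simp⟩
  | add x y _ _ hx hy =>
    obtain ⟨c0, c, e⟩ := hx
    obtain ⟨d0, d, e'⟩ := hy
    refine ⟨c0 + d0, fun i => c i + d i, ?_⟩
    rw [e, e']
    simp only [add_smul, sum_add_distrib]
    abel
  | neg x _ hx =>
    obtain ⟨c0, c, e⟩ := hx
    refine ⟨-c0, fun i => -c i, ?_⟩
    rw [e]
    simp only [neg_smul, sum_neg_distrib]
    abel

/-- **A plane, and classes of discriminant at most `31` which span.** -/
theorem small_span (hH : H.IsCohomology) (hR : KnownRat H)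
    (hP : Nonempty X.Plane) {n : ℕ} {t : Fin n → Fin 23 → ℤ} (htH : ∀ i, H.IsHodge (t i))
    (htd : ∀ i, H.disc (t i) ≤ 31) (hspan : SpansBy H (Set.range t))
    (hn : n ≤ 5 ∨ ∑ i, H.disc (t i) < 128) : Good H ∨ ∀ v, H.IsHodge v → 4 ∣ H.disc v := by
  by_cases hbad : Good H
  · exact Or.inl hbad
  right
  have c : Ctx H := ⟨hH, hR, hbad⟩
  have hsum : ∑ i, H.disc (t i) < 128 := by
    rcases hn with hn | hn
    · obtain ⟨P'⟩ := hP
      have hP : H.IsPl (H.cl P') := (hH.cl_range _).1 ⟨P', rfl⟩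
      have h24 : ∀ i ∈ (univ : Finset (Fin n)), H.disc (t i) ≤ 24 := by
        intro i _
        have h1 := c.d (htH i)
        have h2 := c.pl_two hP (htH i)
        have h3 := htd i
        omega
      have := Finset.sum_le_card_nsmul univ (fun i => H.disc (t i)) 24 h24
      simp only [card_univ, Fintype.card_fin, nsmul_eq_mul] at this
      have : (n : ℤ) ≤ 5 := by exact_mod_cast hn
      linarith
    · exact hn
  intro v hv
  refine (plane_case hH hR hP).resolve_left hbad v ?_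
  have hb : ∃ (m c0 : ℤ) (c : Fin n → ℤ), 0 < m ∧ m • v = c0 • H.h + ∑ i, c i • t i := by
    obtain ⟨m, hm, hmv⟩ := hspan v hv
    obtain ⟨c0, c, e⟩ := of_closure hmv
    rcases lt_or_gt_of_ne hm with h | h
    · refine ⟨-m, -c0, fun i => -c i, by omega, ?_⟩
      rw [neg_smul, e]
      simp only [neg_smul, sum_neg_distrib]
      abel
    · exact ⟨m, c0, c, h, e⟩
  obtain ⟨k, hk⟩ := reduce hH htH hb
  have e : v = (v - ∑ i, k i • t i) + ∑ i, k i • t i := by abel
  rw [e]
  refine AddSubgroup.add_mem _ (AddSubgroup.subset_closure ⟨H.isHodge_sub hv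
    (H.isHodge_sum _ _ fun i _ => H.isHodge_smul _ (htH i)), by omega⟩) ?_
  exact AddSubgroup.sum_mem _ fun i _ => AddSubgroup.zsmul_mem _
    (AddSubgroup.subset_closure (show t i ∈ {v | H.IsHodge v ∧ H.disc v ≤ 31} from
      ⟨htH i, htd i⟩)) _

namespace Ctx

/-- even type without planes: classes of discriminant at most `27` -/
theorem ev_small (c : Ctx H) {t : Fin 5 → Fin 23 → ℤ} (ht : Pairs H t)
    (hev : ∀ s f, Scroll H s → Scroll H f → H.ip s f % 2 = 0) (hnp : ∀ P, ¬ H.IsPl P)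
    {w : Fin 23 → ℤ} (hw : H.IsHodge w) (hd : H.disc w ≤ 27) :
    4 ∣ H.disc w ∧ ∀ s, Scroll H s → Bf H s w % 2 = 0 := by
  have h1 := c.d hw
  have e8 : H.disc w ≠ 8 := by
    intro h8
    obtain ⟨ε, k, g, hε, e, hg, hgh, hgn⟩ := norm1 c.hH hw (by rw [h8]; norm_num)
    exact hnp g ⟨hg, hgh, by omega⟩
  have e18 : H.disc w ≠ 18 := by
    intro h8
    obtain ⟨k, g, e, hg, hgn⟩ := norm0 c.hH hw (by omega)
    exact c.ev_six ht hev hg (by omega)
  have e3 : H.disc w = 0 ∨ H.disc w = 12 ∨ H.disc w = 24 ∨ H.disc w = 20 := by omega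
  refine ⟨by omega, fun s hs => ?_⟩
  rw [Bf_scroll hs]
  have hsh : H.ip s H.h = 0 := hs.2.1
  rcases e3 with e3 | e3 | e3 | e3
  · have := Bf_zero c.hH hw e3 s
    rw [Bf_comm c.hH, Bf_scroll hs] at this
    omega
  · obtain ⟨k, g, e, hg, hgn⟩ := norm0 c.hH hw (by omega)
    have h2 := hev s g hs (scroll_of hg (by omega))
    rw [e, ip_add_right, ip_smul_right, hsh]
    omega
  · obtain ⟨k, g, e, hg, hgn⟩ := norm0 c.hH hw (by omega)
    have h2 := c.ev_eight ht hev hg (by omega) hs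
    rw [e, ip_add_right, ip_smul_right, hsh, c.hH.comm s g]
    omega
  · obtain ⟨ε, k, g, hε, e, hg, hgh, hgn⟩ := norm1 c.hH hw (by omega)
    have h2 := c.seven_vals hnp hg hgh (by omega) hs
    rw [e, ip_add_right, ip_smul_right, ip_smul_right, hsh, c.hH.comm s g]
    rcases hε with rfl | rfl <;> omega

end Ctx

/-- **Scroll classes span.** -/
theorem scrolls_span (hH : H.IsCohomology) (hR : KnownRat H) {t0 : Fin 5 → Fin 23 → ℤ}
    (ht0 : Pairs H t0) (hspan : SpansBy H {x | Scroll H x}) (hr : H.rank ≤ 10) :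
    Good H ∨ (∀ v, H.IsHodge v → 4 ∣ H.disc v) ∨
      ∀ v, H.IsHodge v → H.disc v % 18 = 0 ∨ H.disc v % 18 = 12 := by
  by_cases hbad : Good H
  · exact Or.inl hbad
  right
  have c : Ctx H := ⟨hH, hR, hbad⟩
  by_cases hP : Nonempty X.Plane
  · left
    refine (planes_scrolls_span hH hR hP (fun v hv => ?_) (by omega)).resolve_left hbad
    obtain ⟨m, hm, hmv⟩ := hspan v hv
    exact ⟨m, hm, AddSubgroup.closure_mono (Set.insert_subset_insert fun x hx => Or.inr hx) hmv⟩
  have hnp : ∀ P, ¬ H.IsPl P := fun P h => by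
    obtain ⟨P', -⟩ := (hH.cl_range P).2 h
    exact hP ⟨P'⟩
  obtain ⟨n, t, ht, hnr, -, hb⟩ := exists_basis hH (fun x hx => hx.1) hspan
  have htH : ∀ i, H.IsHodge (t i) := fun i => (ht i).1
  have hn : (n : ℤ) ≤ 9 := by
    have : n ≤ 9 := by omega
    exact_mod_cast this
  have red : ∀ y, H.IsHodge y → ∃ k : Fin n → ℤ, H.disc (y - ∑ i, k i • t i) ≤ 27 := by
    intro y hy
    obtain ⟨k, hk⟩ := reduce hH htH (hb y hy)
    rw [Finset.sum_congr rfl fun i _ => disc_scroll hH (ht i)] at hk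
    simp only [sum_const, card_univ, Fintype.card_fin, nsmul_eq_mul] at hk
    exact ⟨k, by omega⟩
  have hwH : ∀ y, H.IsHodge y → ∀ k : Fin n → ℤ, H.IsHodge (y - ∑ i, k i • t i) :=
    fun y hy k => H.isHodge_sub hy (H.isHodge_sum _ _ fun i _ => H.isHodge_smul _ (htH i))
  rcases c.split with hev | ⟨a, b, ha, hb', hab⟩
  · left
    have all : ∀ s y, Scroll H s → H.IsHodge y → Bf H s y % 2 = 0 := by
      intro s y hs hy
      obtain ⟨k, hk⟩ := red y hy
      refine Bf_of_reduce hH rfl ((c.ev_small ht0 hev hnp (hwH y hy k) hk).2 s hs) fun i => ?_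
      rw [Bf_scroll hs]
      have := hev s (t i) hs (ht i)
      omega
    have hrad : ∀ i, Rad H (t i) := fun i =>
      ⟨by rw [disc_scroll hH (ht i)]; norm_num, fun y hy => all _ y (ht i) hy⟩
    intro v hv
    obtain ⟨k, hk⟩ := red v hv
    have := disc_mod_of_rad hH (hwH v hv k) (Rad.sum hH k hrad htH)
      (c.ev_small ht0 hev hnp (hwH v hv k) hk).1
    rwa [sub_add_cancel] at this
  · right
    intro v hv
    refine c.three_case ht0 hnp ha hb' hab v ?_
    obtain ⟨k, hk⟩ := red v hv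
    have h1 := c.d (hwH v hv k)
    have e : v = (v - ∑ i, k i • t i) + ∑ i, k i • t i := by abel
    rw [e]
    refine AddSubgroup.add_mem _ (AddSubgroup.subset_closure ⟨hwH v hv k, by omega⟩) ?_
    exact AddSubgroup.sum_mem _ fun i _ => AddSubgroup.zsmul_mem _
      (AddSubgroup.subset_closure (show t i ∈ {v | H.IsHodge v ∧ H.disc v ≤ 24} from
        ⟨htH i, by rw [disc_scroll hH (ht i)]; norm_num⟩)) _

end Pool.Agent.Run7.h762.SC
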