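import Pool.Agent.X328.CF.D4Prog
import Pool.Agent.Y95.Q.K3

/-!
The files in this folder are unchanged copies of an earlier version of the files of helper971 in Pool/Agent/Run7/h971/SC,
which are used by the results of helper762; the present version of those files has different statements.
-/

/-!
# Hodge classes of small discriminant on a cubic fourfold: basic facts
-/

set_option autoImplicit false

namespace Pool.Agent.Run7.h762.SC

open Finset Pool.Agent.Y95.Q Pool.Agent.Y95.Q.H4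
open Pool.Agent.X328.CF (disc_nonneg disc_even disc_mod_three exists_sat)
open Pool.Agent.X328.CF.D4 (InDivisor sqf inDivisor_of_disc)

variable {X : CubicFourfold}

/-- the numerical condition of Addington for the variety of lines -/
def Hilb (H : H4 X) : Prop :=
  ∃ d, (∃ a n : ℤ, a ^ 2 * d = 2 * n ^ 2 + 2 * n + 2) ∧ InDivisor H d

/-- the known rational cubic fourfolds -/
def KnownRat (H : H4 X) : Prop :=
  ∀ d : ℤ, (d = 14 ∨ d = 26 ∨ d = 38 ∨ d = 42) → InDivisor H d → X.IsRational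

/-- rational, with an associated K3 surface, and the variety of lines is birational to a Hilbert
square -/
def Good (H : H4 X) : Prop := X.IsRational ∧ H.HasK3 ∧ Hilb H

/-- the bilinear form of the discriminant -/
def Bf (H : H4 X) (v w : Fin 23 → ℤ) : ℤ := 3 * H.ip v w - H.ip v H.h * H.ip w H.h

/-- Hodge classes orthogonal to `h` -/
def Prim (H : H4 X) (u : Fin 23 → ℤ) : Prop := H.IsHodge u ∧ H.ip u H.h = 0

/-- classes of cubic scrolls minus `h` -/
def Scroll (H : H4 X) (t : Fin 23 → ℤ) : Prop := H.IsHodge t ∧ H.ip t H.h = 0 ∧ H.ip t t = 4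

variable {H : H4 X}

theorem hilb_of (hH : H.IsCohomology) {v : Fin 23 → ℤ} (hv : H.IsHodge v) {n : ℤ}
    (hd : H.disc v = 2 * n ^ 2 + 2 * n + 2) : H.HasK3 ∧ Hilb H := by
  have hpos : 0 < H.disc v := by
    rw [hd]
    nlinarith [sq_nonneg (2 * n + 1)]
  obtain ⟨w, m, hm, hw, hsat, hwd⟩ := exists_sat hH hv hpos
  have hmw : m ^ 2 * H.disc w = 2 * n ^ 2 + 2 * n + 2 := by rw [← hwd, hd]
  have hw0 : 0 < H.disc w := by
    by_contra hcon
    push Not at hcon
    have : m ^ 2 * H.disc w ≤ 0 := mul_nonpos_of_nonneg_of_nonpos (by positivity) hcon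
    rw [hmw, ← hd] at this
    linarith
  exact ⟨⟨w, hw, hsat, hH.six_lt hw hw0, four_not_dvd hmw, nine_not_dvd hmw,
    fun p hp hp2 hd => prime_mod hmw hp hp2 hd⟩, H.disc w, ⟨m, n, hmw⟩, w, hw, hsat, rfl⟩

theorem good_of_disc (hH : H.IsCohomology) (hR : KnownRat H) {v : Fin 23 → ℤ}
    (hv : H.IsHodge v) (hd : H.disc v = 14 ∨ H.disc v = 26 ∨ H.disc v = 38 ∨ H.disc v = 42) :
    Good H := by
  have hdiv : InDivisor H (H.disc v) := inDivisor_of_disc hH hv (sqf _ hd) rfl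
  refine ⟨hR _ hd hdiv, ?_⟩
  rcases hd with h | h | h | h
  · exact hilb_of hH hv (n := 2) (by rw [h]; norm_num)
  · exact hilb_of hH hv (n := 3) (by rw [h]; norm_num)
  · have h7 : H.disc ((7 : ℤ) • v) = 2 * 30 ^ 2 + 2 * 30 + 2 := by
      have := hH.disc_comb 7 0 v
      rw [zero_smul, add_zero] at this
      rw [this, h]
      norm_num
    exact hilb_of hH (H.isHodge_smul 7 hv) h7
  · exact hilb_of hH hv (n := 4) (by rw [h]; norm_num)

/-- a plane and an odd class -/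
theorem good_of_odd (hH : H.IsCohomology) {P T : Fin 23 → ℤ} (hP : H.IsPl P)
    (hT : H.IsHodge T) (hodd : Odd (H.ip T (H.h - P))) : Good H := by
  obtain ⟨P', hP'⟩ := (hH.cl_range P).2 hP
  refine ⟨hH.hassett P' T hT (by rw [hP']; exact hodd), ?_⟩
  set b : ℤ := 3 * H.ip P T - H.ip H.h T with hb
  have hbo : Odd b := by
    rw [ip_sub_right, hH.comm T H.h, hH.comm T P] at hodd
    have h1 : b = (H.ip H.h T - H.ip P T) + 2 * (2 * H.ip P T - H.ip H.h T) := by
      rw [hb]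
      ring
    rw [h1]
    exact hodd.add_even (even_two_mul _)
  obtain ⟨i, hi⟩ := hbo
  set j : ℤ := i ^ 2 + i with hj
  have hbj : b * b = 4 * j + 1 := by
    rw [hi, hj]
    ring
  obtain ⟨c, hc⟩ : Even (H.disc (b • T)) := Int.even_iff.2 (disc_even hH _)
  set x : ℤ := c - 1 - j - j ^ 2 with hx
  set n : ℤ := 2 * x + j with hn
  have hv : H.disc (x • P + b • T) = 2 * n ^ 2 + 2 * n + 2 := by
    have h1 : H.disc (x • P + b • T) = 8 * x ^ 2 + 2 * x * (b * b) + H.disc (b • T) := by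
      have hhP : H.ip H.h P = 1 := (hH.comm _ _).trans hP.2.1
      simp only [disc, ip_add_left, ip_add_right, ip_smul_left, ip_smul_right, hP.2.2, hhP,
        hH.comm T P, hb]
      ring
    rw [h1, hbj, hc, hn, hx]
    ring
  exact hilb_of hH (H.isHodge_add (H.isHodge_smul _ hP.1) (H.isHodge_smul _ hT)) hv

theorem disc_eq_Bf (hH : H.IsCohomology) (v : Fin 23 → ℤ) : H.disc v = Bf H v v := by
  unfold disc Bf
  rw [hH.comm H.h v]
  ring

theorem Bf_add_left (u v w : Fin 23 → ℤ) : Bf H (u + v) w = Bf H u w + Bf H v w := by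
  unfold Bf
  rw [ip_add_left, ip_add_left]
  ring

theorem Bf_comm (hH : H.IsCohomology) (v w : Fin 23 → ℤ) : Bf H v w = Bf H w v := by
  unfold Bf
  rw [hH.comm v w]
  ring

theorem Bf_add_right (hH : H.IsCohomology) (u v w : Fin 23 → ℤ) :
    Bf H u (v + w) = Bf H u v + Bf H u w := by
  rw [Bf_comm hH, Bf_add_left, Bf_comm hH v, Bf_comm hH w]

theorem Bf_smul_left (n : ℤ) (v w : Fin 23 → ℤ) : Bf H (n • v) w = n * Bf H v w := by
  unfold Bf
  rw [ip_smul_left, ip_smul_left]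
  ring

theorem Bf_smul_right (hH : H.IsCohomology) (n : ℤ) (v w : Fin 23 → ℤ) :
    Bf H v (n • w) = n * Bf H v w := by
  rw [Bf_comm hH, Bf_smul_left, Bf_comm hH]

theorem Bf_neg_left (v w : Fin 23 → ℤ) : Bf H (-v) w = -Bf H v w := by
  have := Bf_smul_left (H := H) (-1) v w
  rwa [neg_one_smul, neg_one_mul] at this

theorem Bf_h_left (hH : H.IsCohomology) (w : Fin 23 → ℤ) : Bf H H.h w = 0 := by
  unfold Bf
  rw [hH.h_self, hH.comm H.h w]
  ring

theorem disc_two (hH : H.IsCohomology) (k l : ℤ) (v w : Fin 23 → ℤ) :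
    H.disc (k • v + l • w) = k ^ 2 * H.disc v + 2 * (k * l) * Bf H v w + l ^ 2 * H.disc w := by
  simp only [disc_eq_Bf hH, Bf_add_left, Bf_add_right hH, Bf_smul_left, Bf_smul_right hH,
    Bf_comm hH w v]
  ring

/-- the situation of a proof by contradiction -/
structure Ctx (H : H4 X) : Prop where
  hH : H.IsCohomology
  hR : KnownRat H
  bad : ¬ Good H

namespace Ctx

/-- possible discriminants -/
theorem d (c : Ctx H) {u : Fin 23 → ℤ} (hu : H.IsHodge u) :
    0 ≤ H.disc u ∧ (H.disc u = 0 ∨ 6 < H.disc u) ∧ H.disc u ≠ 14 ∧ H.disc u ≠ 26 ∧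
      H.disc u ≠ 38 ∧ H.disc u ≠ 42 ∧ H.disc u % 2 = 0 ∧
      (H.disc u % 3 = 0 ∨ H.disc u % 3 = 2) := by
  have h0 := disc_nonneg c.hH hu
  have h1 := disc_even c.hH u
  have h2 := disc_mod_three (H := H) u
  refine ⟨h0, ?_, ?_, ?_, ?_, ?_, h1, h2⟩
  · rcases h0.eq_or_lt with h | h
    · exact Or.inl h.symm
    · exact Or.inr (c.hH.six_lt hu h)
  all_goals
    intro h
    exact c.bad (good_of_disc c.hH c.hR hu (by tauto))

/-- possible discriminants of combinations -/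
theorem d2 (c : Ctx H) {v w : Fin 23 → ℤ} (hv : H.IsHodge v) (hw : H.IsHodge w) (k l : ℤ)
    {D : ℤ} (hD : D = k ^ 2 * H.disc v + 2 * (k * l) * Bf H v w + l ^ 2 * H.disc w) :
    0 ≤ D ∧ (D = 0 ∨ 6 < D) ∧ D ≠ 14 ∧ D ≠ 26 ∧ D ≠ 38 ∧ D ≠ 42 ∧ D % 2 = 0 ∧
      (D % 3 = 0 ∨ D % 3 = 2) := by
  have h := c.d (u := k • v + l • w) (H.isHodge_add (H.isHodge_smul _ hv) (H.isHodge_smul _ hw))
  rwa [disc_two c.hH, ← hD] at h

theorem even_plane (c : Ctx H) {P T : Fin 23 → ℤ} (hP : H.IsPl P) (hT : H.IsHodge T) :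
    Even (H.ip T (H.h - P)) := by
  by_contra hcon
  rw [Int.not_even_iff_odd] at hcon
  exact c.bad (good_of_odd c.hH hP hT hcon)

/-- the product with a plane is even -/
theorem Bf_plane (c : Ctx H) {P T : Fin 23 → ℤ} (hP : H.IsPl P) (hT : H.IsHodge T) :
    Bf H P T % 2 = 0 := by
  have h := Int.even_iff.1 (c.even_plane hP hT)
  rw [ip_sub_right] at h
  unfold Bf
  rw [hP.2.1, c.hH.comm P T]
  omega

/-- norms of primitive Hodge classes -/
theorem n (c : Ctx H) {u : Fin 23 → ℤ} (hu : Prim H u) :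
    0 ≤ H.ip u u ∧ H.ip u u ≠ 2 ∧ H.ip u u ≠ 14 ∧ H.ip u u % 2 = 0 := by
  have h := c.d hu.1
  have h1 : H.disc u = 3 * H.ip u u := by
    unfold disc
    rw [c.hH.comm H.h u, hu.2]
    ring
  omega

theorem eq_zero (c : Ctx H) {u : Fin 23 → ℤ} (hu : H.IsHodge u) (h : H.ip u u = 0) : u = 0 := by
  by_contra hne
  have := c.hH.pos u hu hne
  omega

end Ctx

theorem Prim.add {u v : Fin 23 → ℤ} (hu : Prim H u) (hv : Prim H v) : Prim H (u + v) :=
  ⟨H.isHodge_add hu.1 hv.1, by rw [ip_add_left, hu.2, hv.2, add_zero]⟩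

theorem Prim.smul {u : Fin 23 → ℤ} (hu : Prim H u) (k : ℤ) : Prim H (k • u) :=
  ⟨H.isHodge_smul k hu.1, by rw [ip_smul_left, hu.2, mul_zero]⟩

theorem Prim.neg {u : Fin 23 → ℤ} (hu : Prim H u) : Prim H (-u) :=
  ⟨H.isHodge_neg hu.1, by rw [ip_neg_left, hu.2, neg_zero]⟩

theorem Prim.sub {u v : Fin 23 → ℤ} (hu : Prim H u) (hv : Prim H v) : Prim H (u - v) := by
  rw [sub_eq_add_neg]
  exact hu.add hv.neg

theorem Scroll.prim {t : Fin 23 → ℤ} (ht : Scroll H t) : Prim H t := ⟨ht.1, ht.2.1⟩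

theorem Scroll.neg {t : Fin 23 → ℤ} (ht : Scroll H t) : Scroll H (-t) :=
  ⟨ht.prim.neg.1, ht.prim.neg.2, by rw [ip_neg_left, ip_neg_right, ht.2.2, neg_neg]⟩

namespace Ctx

/-- norms of combinations of two primitive classes -/
theorem n2 (c : Ctx H) {a b : Fin 23 → ℤ} (ha : Prim H a) (hb : Prim H b) (k l : ℤ) :
    0 ≤ k ^ 2 * H.ip a a + 2 * (k * l) * H.ip a b + l ^ 2 * H.ip b b ∧
    k ^ 2 * H.ip a a + 2 * (k * l) * H.ip a b + l ^ 2 * H.ip b b ≠ 2 ∧
    k ^ 2 * H.ip a a + 2 * (k * l) * H.ip a b + l ^ 2 * H.ip b b ≠ 14 := by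
  have h := c.n ((ha.smul k).add (hb.smul l))
  have e : H.ip (k • a + l • b) (k • a + l • b) =
      k ^ 2 * H.ip a a + 2 * (k * l) * H.ip a b + l ^ 2 * H.ip b b := by
    simp only [ip_add_left, ip_add_right, ip_smul_left, ip_smul_right, c.hH.comm b a]
    ring
  rw [e] at h
  exact ⟨h.1, h.2.1, h.2.2.1⟩

/-- the norm of a combination of three classes -/
theorem e3 (c : Ctx H) (a b d : Fin 23 → ℤ) (k l m : ℤ) :
    H.ip (k • a + l • b + m • d) (k • a + l • b + m • d) =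
      k ^ 2 * H.ip a a + l ^ 2 * H.ip b b + m ^ 2 * H.ip d d + 2 * (k * l) * H.ip a b +
        2 * (k * m) * H.ip a d + 2 * (l * m) * H.ip b d := by
  simp only [ip_add_left, ip_add_right, ip_smul_left, ip_smul_right, c.hH.comm b a,
    c.hH.comm d a, c.hH.comm d b]
  ring

theorem n3 (c : Ctx H) {a b d : Fin 23 → ℤ} (ha : Prim H a) (hb : Prim H b) (hd : Prim H d)
    (k l m : ℤ) {N : ℤ}
    (hN : N = k ^ 2 * H.ip a a + l ^ 2 * H.ip b b + m ^ 2 * H.ip d d + 2 * (k * l) * H.ip a b +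
        2 * (k * m) * H.ip a d + 2 * (l * m) * H.ip b d) : 0 ≤ N ∧ N ≠ 2 ∧ N ≠ 14 := by
  have h := c.n (((ha.smul k).add (hb.smul l)).add (hd.smul m))
  rw [c.e3, ← hN] at h
  exact ⟨h.1, h.2.1, h.2.2.1⟩

theorem n4 (c : Ctx H) {a b d e : Fin 23 → ℤ} (ha : Prim H a) (hb : Prim H b) (hd : Prim H d)
    (he : Prim H e) (k l m o : ℤ) {N : ℤ}
    (hN : N = k ^ 2 * H.ip a a + l ^ 2 * H.ip b b + m ^ 2 * H.ip d d + o ^ 2 * H.ip e e +
      2 * (k * l) * H.ip a b + 2 * (k * m) * H.ip a d + 2 * (l * m) * H.ip b d +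
      2 * (k * o) * H.ip a e + 2 * (l * o) * H.ip b e + 2 * (m * o) * H.ip d e) :
    0 ≤ N ∧ N ≠ 2 ∧ N ≠ 14 := by
  have h := c.n ((((ha.smul k).add (hb.smul l)).add (hd.smul m)).add (he.smul o))
  have e' : H.ip (k • a + l • b + m • d + o • e) (k • a + l • b + m • d + o • e) = N := by
    rw [hN]
    simp only [ip_add_left, ip_add_right, ip_smul_left, ip_smul_right, c.hH.comm b a,
      c.hH.comm d a, c.hH.comm d b, c.hH.comm e a, c.hH.comm e b, c.hH.comm e d]
    ring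
  rw [e'] at h
  exact ⟨h.1, h.2.1, h.2.2.1⟩

theorem n5 (c : Ctx H) {a b d e f : Fin 23 → ℤ} (ha : Prim H a) (hb : Prim H b)
    (hd : Prim H d) (he : Prim H e) (hf : Prim H f) (k l m o p : ℤ) {N : ℤ}
    (hN : N = k ^ 2 * H.ip a a + l ^ 2 * H.ip b b + m ^ 2 * H.ip d d + o ^ 2 * H.ip e e +
      p ^ 2 * H.ip f f +
      2 * (k * l) * H.ip a b + 2 * (k * m) * H.ip a d + 2 * (l * m) * H.ip b d +
      2 * (k * o) * H.ip a e + 2 * (l * o) * H.ip b e + 2 * (m * o) * H.ip d e +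
      2 * (k * p) * H.ip a f + 2 * (l * p) * H.ip b f + 2 * (m * p) * H.ip d f +
      2 * (o * p) * H.ip e f) :
    0 ≤ N ∧ N ≠ 2 ∧ N ≠ 14 := by
  have h := c.n (((((ha.smul k).add (hb.smul l)).add (hd.smul m)).add (he.smul o)).add
    (hf.smul p))
  have e' : H.ip (k • a + l • b + m • d + o • e + p • f)
      (k • a + l • b + m • d + o • e + p • f) = N := by
    rw [hN]
    simp only [ip_add_left, ip_add_right, ip_smul_left, ip_smul_right, c.hH.comm b a,
      c.hH.comm d a, c.hH.comm d b, c.hH.comm e a, c.hH.comm e b, c.hH.comm e d,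
      c.hH.comm f a, c.hH.comm f b, c.hH.comm f d, c.hH.comm f e]
    ring
  rw [e'] at h
  exact ⟨h.1, h.2.1, h.2.2.1⟩

end Ctx

end Pool.Agent.Run7.h762.SC
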