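import Pool.Agent.Run7.h762.SC.Type3b

/-!
# Scroll classes with even products, and planes
-/

set_option autoImplicit false

namespace Pool.Agent.Run7.h762.SC

open Finset Pool.Agent.Y95.Q Pool.Agent.Y95.Q.H4

variable {X : CubicFourfold} {H : H4 X}

theorem Pairs.cast {n m : ℕ} {t : Fin n → Fin 23 → ℤ} (ht : Pairs H t) (h : m ≤ n) :
    Pairs H fun i => t (Fin.castLE h i) :=
  ⟨fun _ => ht.1 _, fun _ _ hij => ht.2 _ _ fun h' => hij (Fin.castLE_injective h h')⟩

theorem deg_three (hH : H.IsCohomology) {v : Fin 23 → ℤ} (h : H.disc v % 3 = 0) :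
    H.ip v H.h % 3 = 0 := by
  unfold disc at h
  rw [hH.comm H.h v] at h
  have h1 : (3 : ℤ) ∣ H.ip v H.h ^ 2 := by
    have : H.ip v H.h ^ 2 = 3 * H.ip v v - (3 * H.ip v v - H.ip v H.h ^ 2) := by ring
    rw [this]
    exact dvd_sub (Dvd.intro _ rfl) (Int.dvd_of_emod_eq_zero h)
  exact Int.emod_eq_zero_of_dvd (Int.prime_three.dvd_of_dvd_pow h1)

theorem Bf_three (hH : H.IsCohomology) {v : Fin 23 → ℤ} (h : H.disc v % 3 = 0)
    (w : Fin 23 → ℤ) : Bf H v w % 3 = 0 := by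
  have h1 := Int.dvd_of_emod_eq_zero (deg_three hH h)
  apply Int.emod_eq_zero_of_dvd
  unfold Bf
  exact dvd_sub (Dvd.intro _ rfl) (h1.mul_right _)

theorem norm0 (hH : H.IsCohomology) {v : Fin 23 → ℤ} (hv : H.IsHodge v)
    (h : H.disc v % 3 = 0) : ∃ (k : ℤ) (g : Fin 23 → ℤ), v = g + k • H.h ∧ Prim H g ∧
      3 * H.ip g g = H.disc v := by
  have h1 := deg_three hH h
  obtain ⟨k, hk⟩ : ∃ k, H.ip v H.h = 3 * k := ⟨H.ip v H.h / 3, by omega⟩
  refine ⟨k, v - k • H.h, by abel, ⟨H.isHodge_sub hv (H.isHodge_smul _ hH.h_hodge), ?_⟩, ?_⟩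
  · rw [ip_sub_left, ip_smul_left, hH.h_self, hk]
    ring
  · simp only [disc, ip_sub_left, ip_sub_right, ip_smul_left, ip_smul_right, hH.h_self,
      hH.comm H.h v, hk]
    ring

theorem norm1 (hH : H.IsCohomology) {v : Fin 23 → ℤ} (hv : H.IsHodge v)
    (h : H.disc v % 3 = 2) : ∃ (ε k : ℤ) (g : Fin 23 → ℤ), (ε = 1 ∨ ε = -1) ∧
      v = ε • g + k • H.h ∧ H.IsHodge g ∧ H.ip g H.h = 1 ∧ 3 * H.ip g g = H.disc v + 1 := by
  have h0 : H.ip v H.h % 3 = 1 ∨ H.ip v H.h % 3 = 2 := by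
    by_contra hcon
    have h1 : H.ip v H.h % 3 = 0 := by omega
    have h2 := Int.dvd_of_emod_eq_zero h1
    have h3 : (3 : ℤ) ∣ H.disc v := by
      unfold disc
      rw [hH.comm H.h v]
      exact dvd_sub (Dvd.intro _ rfl) (dvd_pow h2 (by norm_num))
    omega
  rcases h0 with h0 | h0
  · obtain ⟨k, hk⟩ : ∃ k, H.ip v H.h = 3 * k + 1 := ⟨H.ip v H.h / 3, by omega⟩
    refine ⟨1, k, v - k • H.h, Or.inl rfl, by rw [one_smul]; abel,
      H.isHodge_sub hv (H.isHodge_smul _ hH.h_hodge), ?_, ?_⟩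
    · rw [ip_sub_left, ip_smul_left, hH.h_self, hk]
      ring
    · simp only [disc, ip_sub_left, ip_sub_right, ip_smul_left, ip_smul_right, hH.h_self,
        hH.comm H.h v, hk]
      ring
  · obtain ⟨k, hk⟩ : ∃ k, H.ip v H.h = 3 * k - 1 := ⟨H.ip v H.h / 3 + 1, by omega⟩
    refine ⟨-1, k, k • H.h - v, Or.inr rfl, by rw [neg_one_smul]; abel,
      H.isHodge_sub (H.isHodge_smul _ hH.h_hodge) hv, ?_, ?_⟩
    · rw [ip_sub_left, ip_smul_left, hH.h_self, hk]
      ring
    · simp only [disc, ip_sub_left, ip_sub_right, ip_smul_left, ip_smul_right, hH.h_self,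
        hH.comm H.h v, hk]
      ring

theorem Bf_zero (hH : H.IsCohomology) {v : Fin 23 → ℤ} (hv : H.IsHodge v) (h : H.disc v = 0)
    (w : Fin 23 → ℤ) : Bf H v w = 0 := by
  obtain ⟨k, g, e, hg, hn⟩ := norm0 hH hv (by rw [h]; norm_num)
  have h1 : H.ip g g = 0 := by omega
  have h2 : g = 0 := by
    by_contra hne
    have := hH.pos g hg.1 hne
    omega
  rw [e, h2, zero_add, Bf_smul_left, Bf_h_left hH, mul_zero]

namespace Ctx

/-- even type: there is no class of norm six -/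
theorem ev_six (c : Ctx H) {t : Fin 5 → Fin 23 → ℤ} (ht : Pairs H t)
    (hev : ∀ s f, Scroll H s → Scroll H f → H.ip s f % 2 = 0) {v : Fin 23 → ℤ}
    (hv : Prim H v) (h6 : H.ip v v = 6) : False := by
  classical
  have vals : ∀ f, Scroll H f → H.ip v f = 0 ∨ H.ip v f = 1 ∨ H.ip v f = -1 := by
    intro f hf
    rcases c.six_vals hv h6 hf with h | h | h | h | h
    · exact Or.inl h
    · exact Or.inr (Or.inl h)
    · exact Or.inr (Or.inr h)
    · exfalso
      have hg : Scroll H (v - f) := scroll_of (hv.sub hf.prim) (by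
        rw [ip_sub_left, ip_sub_right, ip_sub_right, c.hH.comm f v, hf.2.2, h6, h]
        norm_num)
      have := hev _ _ hg hf
      rw [ip_sub_left, h, hf.2.2] at this
      omega
    · exfalso
      have hg : Scroll H (v + f) := scroll_of (hv.add hf.prim) (by
        rw [ip_add_left, ip_add_right, ip_add_right, c.hH.comm f v, hf.2.2, h6, h]
        norm_num)
      have := hev _ _ hg hf
      rw [ip_add_left, h, hf.2.2] at this
      omega
  -- two classes with nonzero products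
  have nz : ∀ f g, Scroll H f → Scroll H g → f ≠ g ∧ f ≠ -g → H.ip v f ≠ 0 → H.ip v g ≠ 0 →
      False := by
    have key : ∀ f g, Scroll H f → Scroll H g → (-2 ≤ H.ip f g ∧ H.ip f g ≤ 2) →
        H.ip v f = 1 → H.ip v g = 1 → False := by
      intro f g hf hg hb h1 h2
      have k1 := c.n3 hv hf.prim hg.prim 1 1 (-1) rfl
      have k2 := c.n3 hv hf.prim hg.prim 1 (-1) 1 rfl
      have k3 := c.n3 hv hf.prim hg.prim 1 1 1 rfl
      have k4 := hev f g hf hg
      rw [h6, hf.2.2, hg.2.2, h1, h2] at k1 k2 k3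
      have e : H.ip f g = 0 ∨ H.ip f g = 2 ∨ H.ip f g = -2 := by omega
      have k5 := c.n3 hv hf.prim hg.prim 1 (-1) (-1) rfl
      have k6 := c.n3 hv hf.prim hg.prim 1 (-2) 1 rfl
      have k7 := c.n3 hv hf.prim hg.prim 1 1 (-2) rfl
      rw [h6, hf.2.2, hg.2.2, h1, h2] at k5 k6 k7
      rcases e with e | e | e <;> rw [e] at k1 k2 k3 k5 k6 k7 <;> omega
    intro f g hf hg hne h1 h2
    have hb := c.bound hf hg hne.1 hne.2
    rcases vals f hf with h | h | h
    · exact h1 h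
    · rcases vals g hg with h' | h' | h'
      · exact h2 h'
      · exact key f g hf hg hb h h'
      · exact key f (-g) hf hg.neg (by rw [ip_neg_right]; omega) h
          (by rw [ip_neg_right, h', neg_neg])
    · rcases vals g hg with h' | h' | h'
      · exact h2 h'
      · exact key (-f) g hf.neg hg (by rw [ip_neg_left]; omega)
          (by rw [ip_neg_right, h, neg_neg]) h'
      · exact key (-f) (-g) hf.neg hg.neg (by rw [ip_neg_left, ip_neg_right]; omega)
          (by rw [ip_neg_right, h, neg_neg]) (by rw [ip_neg_right, h', neg_neg])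
  -- classes with product zero
  have zz : ∀ f g, Scroll H f → Scroll H g → H.ip v f = 0 → H.ip v g = 0 → H.ip f g ≠ 0 := by
    intro f g hf hg h1 h2 h3
    have k1 := c.n3 hv hf.prim hg.prim 1 1 1 rfl
    rw [h6, hf.2.2, hg.2.2, h1, h2, h3] at k1
    omega
  -- four classes with product zero
  have four : ∀ f1 f2 f3 f4, Scroll H f1 → Scroll H f2 → Scroll H f3 → Scroll H f4 →
      H.ip v f1 = 0 → H.ip v f2 = 0 → H.ip v f3 = 0 → H.ip v f4 = 0 → (f1 ≠ f2 ∧ f1 ≠ -f2) →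
      (f1 ≠ f3 ∧ f1 ≠ -f3) → (f1 ≠ f4 ∧ f1 ≠ -f4) → (f2 ≠ f3 ∧ f2 ≠ -f3) →
      (f2 ≠ f4 ∧ f2 ≠ -f4) → (f3 ≠ f4 ∧ f3 ≠ -f4) → False := by
    intro f1 f2 f3 f4 hf1 hf2 hf3 hf4 z1 z2 z3 z4 n12 n13 n14 n23 n24 n34
    have val : ∀ f g, Scroll H f → Scroll H g → (f ≠ g ∧ f ≠ -g) → H.ip v f = 0 →
        H.ip v g = 0 → H.ip f g = 2 ∨ H.ip f g = -2 := by
      intro f g hf hg hne h1 h2
      have e1 := c.bound hf hg hne.1 hne.2
      have e2 := zz f g hf hg h1 h2
      have e3 := hev f g hf hg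
      omega
    -- normalise `f2`
    obtain ⟨g2, hg2, y2, p12, e2⟩ : ∃ g, Scroll H g ∧ H.ip v g = 0 ∧ H.ip f1 g = -2 ∧
        (g = f2 ∨ g = -f2) := by
      rcases val f1 f2 hf1 hf2 n12 z1 z2 with h | h
      · exact ⟨-f2, hf2.neg, by rw [ip_neg_right, z2, neg_zero], by rw [ip_neg_right, h],
          Or.inr rfl⟩
      · exact ⟨f2, hf2, z2, h, Or.inl rfl⟩
    have hu : Scroll H (f1 + g2) := scroll_of (hf1.prim.add hg2.prim) (by
      rw [ip_add_left, ip_add_right, ip_add_right, c.hH.comm g2 f1, hf1.2.2, hg2.2.2, p12]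
      norm_num)
    have yu : H.ip v (f1 + g2) = 0 := by rw [ip_add_right, z1, y2, add_zero]
    have third : ∀ f, Scroll H f → H.ip v f = 0 → (f1 ≠ f ∧ f1 ≠ -f) → (f2 ≠ f ∧ f2 ≠ -f) →
        f = f1 + g2 ∨ f = -(f1 + g2) := by
      have third' : ∀ f, Scroll H f → H.ip v f = 0 → H.ip f1 f = -2 →
          (H.ip g2 f = 2 ∨ H.ip g2 f = -2) → f = -(f1 + g2) := by
        intro f hf zf p q
        have h1 := zz (f1 + g2) f hu hf yu zf
        rw [ip_add_left, p] at h1
        have q' : H.ip g2 f = -2 := by omega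
        have := c.eq_zero (u := f1 + g2 + f) (H.isHodge_add hu.1 hf.1) (by
          simp only [ip_add_left, ip_add_right, c.hH.comm g2 f1, c.hH.comm f f1,
            c.hH.comm f g2, hf1.2.2, hg2.2.2, hf.2.2, p12, p, q']
          norm_num)
        exact eq_neg_of_add_eq_zero_right this
      intro f hf zf n1 n2
      have hg2f : H.ip g2 f = 2 ∨ H.ip g2 f = -2 := by
        rcases e2 with rfl | rfl
        · exact val _ f hg2 hf n2 y2 zf
        · have := val f2 f hf2 hf n2 z2 zf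
          rw [ip_neg_left]
          omega
      rcases val f1 f hf1 hf n1 z1 zf with h | h
      · left
        have := third' (-f) hf.neg (by rw [ip_neg_right, zf, neg_zero])
          (by rw [ip_neg_right, h]) (by rw [ip_neg_right]; omega)
        exact neg_injective this
      · right
        exact third' f hf zf h hg2f
    rcases third f3 hf3 z3 n13 n23 with h3 | h3 <;> rcases third f4 hf4 z4 n14 n24 with h4 | h4
    · exact n34.1 (h3.trans h4.symm)
    · exact n34.2 (by rw [h4, neg_neg, h3])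
    · exact n34.2 (by rw [h4, h3])
    · exact n34.1 (h3.trans h4.symm)
  -- choose four classes
  obtain ⟨F, hF, hz⟩ : ∃ F : Finset (Fin 23 → ℤ), F.card ≤ 1 ∧ ∀ i,
      (∀ x ∈ F, x ≠ t i ∧ x ≠ -t i) → H.ip v (t i) = 0 := by
    by_cases h : ∃ i, H.ip v (t i) ≠ 0
    · obtain ⟨i, hi⟩ := h
      refine ⟨{t i}, by simp, fun j hj => ?_⟩
      by_contra hcon
      exact nz (t i) (t j) (ht.1 i) (ht.1 j) (hj (t i) (by simp)) hi hcon
    · push Not at h
      exact ⟨∅, by simp, fun i _ => h i⟩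
  obtain ⟨i1, i2, h12, a1, a2⟩ := exists_two ht F (by omega)
  obtain ⟨i3, i4, h34, a3, a4⟩ := exists_two ht (F ∪ {t i1, t i2}) (by
    have e1 := Finset.card_union_le F {t i1, t i2}
    have e2 := Finset.card_le_two (a := t i1) (b := t i2)
    omega)
  refine four (t i1) (t i2) (t i3) (t i4) (ht.1 _) (ht.1 _) (ht.1 _) (ht.1 _)
    (hz i1 a1) (hz i2 a2) (hz i3 fun x hx => a3 x (mem_union_left _ hx))
    (hz i4 fun x hx => a4 x (mem_union_left _ hx)) (ht.2 _ _ h12)
    (a3 _ (by simp)) (a4 _ (by simp)) (a3 _ (by simp)) (a4 _ (by simp)) (ht.2 _ _ h34)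

/-- even type: there is no class of norm ten with even products -/
theorem ev_ten (c : Ctx H) {t : Fin 11 → Fin 23 → ℤ} (ht : Pairs H t)
    (hev : ∀ s f, Scroll H s → Scroll H f → H.ip s f % 2 = 0) {u : Fin 23 → ℤ}
    (hu : Prim H u) (h10 : H.ip u u = 10) (hy : ∀ f, Scroll H f → H.ip u f % 2 = 0) :
    False := by
  have ht5 := ht.cast (m := 5) (by norm_num)
  have vals : ∀ f, Scroll H f → H.ip u f = 2 ∨ H.ip u f = -2 := by
    have pos : ∀ f, Scroll H f → H.ip u f ≠ 4 := by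
      intro f hf h
      exact c.ev_six ht5 hev (hu.sub hf.prim) (by
        rw [ip_sub_left, ip_sub_right, ip_sub_right, c.hH.comm f u, hf.2.2, h10, h]
        norm_num)
    intro f hf
    have k1 := c.n2 hu hf.prim 1 (-1)
    have k2 := c.n2 hu hf.prim 1 1
    rw [hf.2.2, h10] at k1 k2
    have k3 := hy f hf
    have p1 := pos f hf
    have p2 := pos (-f) hf.neg
    rw [ip_neg_right] at p2
    omega
  have hs : ∀ i, ∃ s, Scroll H s ∧ H.ip u s = 2 ∧ (s = t i ∨ s = -t i) := by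
    intro i
    rcases vals _ (ht.1 i) with h | h
    · exact ⟨t i, ht.1 i, h, Or.inl rfl⟩
    · exact ⟨-t i, (ht.1 i).neg, by rw [ip_neg_right, h, neg_neg], Or.inr rfl⟩
  choose s hs1 hs2 hs3 using hs
  have hne : ∀ i j, i ≠ j → s i ≠ s j ∧ s i ≠ -s j := by
    intro i j hij
    obtain ⟨q1, q2⟩ := ht.2 i j hij
    rcases hs3 i with h | h <;> rcases hs3 j with h' | h' <;> rw [h, h']
    · exact ⟨q1, q2⟩
    · exact ⟨q2, by rwa [neg_neg]⟩
    · exact ⟨fun h => q2 (by rw [← h, neg_neg]), fun h => q1 (neg_injective h)⟩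
    · refine ⟨fun h => q1 (neg_injective h), fun h => q2 ?_⟩
      rw [neg_neg] at h
      rw [← h, neg_neg]
  have orth : ∀ i j, i ≠ j → H.ip (s i) (s j) = 0 := by
    intro i j hij
    have e1 := c.bound (hs1 i) (hs1 j) (hne i j hij).1 (hne i j hij).2
    have e2 := hev _ _ (hs1 i) (hs1 j)
    by_contra h0
    have e3 : H.ip (s i) (s j) = 2 ∨ H.ip (s i) (s j) = -2 := by omega
    rcases e3 with h | h
    · have hg : Scroll H (s i - s j) := scroll_of ((hs1 i).prim.sub (hs1 j).prim) (by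
        rw [ip_sub_left, ip_sub_right, ip_sub_right, c.hH.comm (s j) (s i), (hs1 i).2.2,
          (hs1 j).2.2, h]
        norm_num)
      have := vals _ hg
      rw [ip_sub_right, hs2, hs2] at this
      omega
    · have hg : Scroll H (s i + s j) := scroll_of ((hs1 i).prim.add (hs1 j).prim) (by
        rw [ip_add_left, ip_add_right, ip_add_right, c.hH.comm (s j) (s i), (hs1 i).2.2,
          (hs1 j).2.2, h]
        norm_num)
      have := vals _ hg
      rw [ip_add_right, hs2, hs2] at this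
      omega
  have hSh : H.IsHodge (∑ i, s i) := H.isHodge_sum _ _ fun i _ => (hs1 i).1
  have h1 : H.ip u (∑ i, s i) = 22 := by
    rw [ip_sum_right, Finset.sum_congr rfl fun i _ => hs2 i]
    simp
  have h2 : H.ip (∑ i, s i) (∑ i, s i) = 44 := by
    rw [ip_sum_left]
    have : ∀ i ∈ (univ : Finset (Fin 11)), H.ip (s i) (∑ j, s j) = 4 := by
      intro i _
      rw [ip_sum_right, Finset.sum_eq_single i, (hs1 i).2.2]
      · intro j _ hj
        exact orth i j hj.symm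
      · intro h
        exact absurd (mem_univ i) h
    rw [Finset.sum_congr rfl this]
    simp
  have h3 := c.hH.nonneg (v := (2 : ℤ) • u - ∑ i, s i)
    (H.isHodge_sub (H.isHodge_smul _ hu.1) hSh)
  rw [ip_sub_left, ip_sub_right, ip_sub_right, ip_smul_left, ip_smul_right, ip_smul_left,
    ip_smul_right, c.hH.comm (∑ i, s i) u, h1, h2, h10] at h3
  norm_num at h3

/-- even type: products of classes of norm eight -/
theorem ev_eight (c : Ctx H) {t : Fin 5 → Fin 23 → ℤ} (ht : Pairs H t)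
    (hev : ∀ s f, Scroll H s → Scroll H f → H.ip s f % 2 = 0) {v f : Fin 23 → ℤ}
    (hv : Prim H v) (h8 : H.ip v v = 8) (hf : Scroll H f) : H.ip v f % 2 = 0 := by
  have pos : ∀ f, Scroll H f → H.ip v f ≠ 3 := by
    intro f hf h
    exact c.ev_six ht hev (hv.sub hf.prim) (by
      rw [ip_sub_left, ip_sub_right, ip_sub_right, c.hH.comm f v, hf.2.2, h8, h]
      norm_num)
  have k1 := c.n2 hv hf.prim 1 (-1)
  have k2 := c.n2 hv hf.prim 1 1
  rw [hf.2.2, h8] at k1 k2
  have p1 := pos f hf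
  have p2 := pos (-f) hf.neg
  rw [ip_neg_right] at p2
  omega

/-- even type, `(20, 20)` -/
theorem ev_20_20 (c : Ctx H) {t : Fin 11 → Fin 23 → ℤ} (ht : Pairs H t)
    (hev : ∀ s f, Scroll H s → Scroll H f → H.ip s f % 2 = 0) (hnp : ∀ P, ¬ H.IsPl P)
    {v w : Fin 23 → ℤ} (hv : H.IsHodge v) (hvh : H.ip v H.h = 1) (hv7 : H.ip v v = 7)
    (hw : H.IsHodge w) (hwh : H.ip w H.h = 1) (hw7 : H.ip w w = 7) : Bf H v w % 2 = 0 := by
  have ht5 := ht.cast (m := 5) (by norm_num)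
  have hu : Prim H (v - w) := ⟨H.isHodge_sub hv hw, by rw [ip_sub_left, hvh, hwh]; norm_num⟩
  have hn : H.ip (v - w) (v - w) = 14 - 2 * H.ip v w := by
    rw [ip_sub_left, ip_sub_right, ip_sub_right, c.hH.comm w v, hv7, hw7]
    ring
  have hB : Bf H v w = 3 * H.ip v w - 1 := by
    unfold Bf
    rw [hvh, hwh]
    ring
  have hdv : H.disc v = 20 := by
    unfold disc
    rw [c.hH.comm H.h v, hvh, hv7]
    norm_num
  have hdw : H.disc w = 20 := by
    unfold disc
    rw [c.hH.comm H.h w, hwh, hw7]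
    norm_num
  have k1 := c.n hu
  have k2 := c.d2 hv hw 1 1 rfl
  rw [hn] at k1
  rw [hdv, hdw, hB] at k2
  have p1 : H.ip v w ≠ 4 := fun h => c.ev_six ht5 hev hu (by rw [hn, h]; norm_num)
  have p2 : H.ip v w ≠ 2 := fun h => c.ev_ten ht hev hu (by rw [hn, h]; norm_num) (by
    intro f hf
    rw [ip_sub_left]
    have e1 := c.seven_vals hnp hv hvh hv7 hf
    have e2 := c.seven_vals hnp hw hwh hw7 hf
    omega)
  rw [hB]
  have b1 : -9 ≤ H.ip v w ∧ H.ip v w ≤ 7 := by omega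
  obtain ⟨b1, b2⟩ := b1
  generalize H.ip v w = p at *
  interval_cases p <;> omega

/-- `(20, 24)` -/
theorem ev_20_24 (c : Ctx H) {v w : Fin 23 → ℤ} (hv : H.IsHodge v) (hdv : H.disc v = 20)
    (hw : Prim H w) (hw8 : H.ip w w = 8) : Bf H v w % 2 = 0 := by
  have hB : Bf H v w = 3 * H.ip v w := by
    unfold Bf
    rw [hw.2]
    ring
  have hdw : H.disc w = 24 := by
    unfold disc
    rw [c.hH.comm H.h w, hw.2, hw8]
    norm_num
  have k1 := c.d2 hv hw.1 1 1 rfl
  have k2 := c.d2 hv hw.1 1 (-1) rfl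
  rw [hdv, hdw, hB] at k1 k2
  rw [hB]
  have b1 : -7 ≤ H.ip v w ∧ H.ip v w ≤ 7 := by omega
  obtain ⟨b1, b2⟩ := b1
  generalize H.ip v w = p at *
  interval_cases p <;> omega

/-- even type, `(24, 24)` -/
theorem ev_24_24 (c : Ctx H) {t : Fin 11 → Fin 23 → ℤ} (ht : Pairs H t)
    (hev : ∀ s f, Scroll H s → Scroll H f → H.ip s f % 2 = 0)
    {v w : Fin 23 → ℤ} (hv : Prim H v) (hv8 : H.ip v v = 8) (hw : Prim H w)
    (hw8 : H.ip w w = 8) : Bf H v w % 2 = 0 := by
  have ht5 := ht.cast (m := 5) (by norm_num)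
  have hB : Bf H v w = 3 * H.ip v w := by
    unfold Bf
    rw [hw.2]
    ring
  have pos : ∀ w, Prim H w → H.ip w w = 8 → H.ip v w ≠ 5 ∧ H.ip v w ≠ 3 := by
    intro w hw hw8
    have hn : H.ip (v - w) (v - w) = 16 - 2 * H.ip v w := by
      rw [ip_sub_left, ip_sub_right, ip_sub_right, c.hH.comm w v, hv8, hw8]
      ring
    refine ⟨fun h => c.ev_six ht5 hev (hv.sub hw) (by rw [hn, h]; norm_num), fun h =>
      c.ev_ten ht hev (hv.sub hw) (by rw [hn, h]; norm_num) ?_⟩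
    intro f hf
    have e1 := c.ev_eight ht5 hev hv hv8 hf
    have e2 := c.ev_eight ht5 hev hw hw8 hf
    rw [ip_sub_left]
    omega
  have k1 := c.n2 hv hw 1 (-1)
  have k2 := c.n2 hv hw 1 1
  rw [hv8, hw8] at k1 k2
  have p1 := pos w hw hw8
  have p2 := pos (-w) hw.neg (by rw [ip_neg_left, ip_neg_right, hw8, neg_neg])
  rw [ip_neg_right] at p2
  rw [hB]
  omega

/-- a plane and a class whose discriminant is not divisible by four -/
theorem pl_two (c : Ctx H) {P : Fin 23 → ℤ} (hP : H.IsPl P) {u : Fin 23 → ℤ}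
    (hu : H.IsHodge u) (h4 : H.disc u % 4 = 2) : 42 < H.disc u := by
  by_contra hcon
  have hdP : H.disc P = 8 := by
    unfold disc
    rw [c.hH.comm H.h P, hP.2.1, hP.2.2]
    norm_num
  have e0 := c.d hu
  have e1 : H.disc u = 18 ∨ H.disc u = 30 := by omega
  have e2 := c.Bf_plane hP hu
  have e3 : Bf H P u % 3 = 0 := by
    rw [Bf_comm c.hH]
    exact Bf_three c.hH (by omega) _
  have k1 := c.d2 hP.1 hu 1 1 rfl
  have k2 := c.d2 hP.1 hu (-1) 1 rfl
  have k3 := c.d2 hP.1 hu 2 1 rfl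
  have k4 := c.d2 hP.1 hu (-2) 1 rfl
  rw [hdP] at k1 k2 k3 k4
  obtain ⟨b, hb⟩ : ∃ b, Bf H P u = 6 * b := ⟨Bf H P u / 6, by omega⟩
  rw [hb] at k1 k2 k3 k4
  have b1 : -3 ≤ b ∧ b ≤ 3 := by omega
  obtain ⟨b1, b2⟩ := b1
  rcases e1 with e1 | e1 <;> rw [e1] at k1 k2 k3 k4 <;> interval_cases b <;> omega

/-- a plane and two classes of small discriminant -/
theorem pl_odd (c : Ctx H) {P : Fin 23 → ℤ} (hP : H.IsPl P) {v w : Fin 23 → ℤ}
    (hv : H.IsHodge v) (hw : H.IsHodge w)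
    (h1 : H.disc v = 12 ∨ H.disc v = 20 ∨ H.disc v = 24)
    (h2 : H.disc w = 12 ∨ H.disc w = 20 ∨ H.disc w = 24) : Bf H v w % 2 = 0 := by
  have k1 := c.d2 hv hw 1 1 rfl
  have k2 := c.d2 hv hw 1 (-1) rfl
  have e3 : H.disc v = 24 → Bf H v w % 3 = 0 := fun h => Bf_three c.hH (by omega) _
  have m1 : ∀ k : ℤ, H.disc ((1 : ℤ) • v + k • w) % 4 = 2 →
      42 < H.disc ((1 : ℤ) • v + k • w) := fun k h =>
    c.pl_two hP (H.isHodge_add (H.isHodge_smul _ hv) (H.isHodge_smul _ hw)) h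
  have m2 := m1 1
  have m3 := m1 (-1)
  rw [disc_two c.hH] at m2 m3
  generalize Bf H v w = B at *
  rcases h1 with h1 | h1 | h1 <;> rcases h2 with h2 | h2 | h2 <;>
    rw [h1, h2] at k1 k2 m2 m3 <;> omega

end Ctx

end Pool.Agent.Run7.h762.SC
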