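import Pool.Agent.Run7.h762.SC.EvenType

/-!
# The groups generated by the Hodge classes of small discriminant
-/

set_option autoImplicit false

namespace Pool.Agent.Run7.h762.SC

open Finset Pool.Agent.Y95.Q Pool.Agent.Y95.Q.H4

variable {X : CubicFourfold} {H : H4 X}

/-- the group generated by the Hodge classes of discriminant at most `D` -/
def Small (H : H4 X) (D : ℤ) : AddSubgroup (Fin 23 → ℤ) :=
  AddSubgroup.closure {v | H.IsHodge v ∧ H.disc v ≤ D}

theorem closure_bilin (G : Set (Fin 23 → ℤ)) (m : ℤ) (F : (Fin 23 → ℤ) → (Fin 23 → ℤ) → ℤ)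
    (hl : ∀ u v w, F (u + v) w = F u w + F v w) (hr : ∀ u v w, F u (v + w) = F u v + F u w)
    (hG : ∀ v ∈ G, ∀ w ∈ G, m ∣ F v w) : ∀ v ∈ AddSubgroup.closure G,
      ∀ w ∈ AddSubgroup.closure G, m ∣ F v w := by
  have hl0 : ∀ w, F 0 w = 0 := fun w => by
    have := hl 0 0 w
    rw [add_zero] at this
    omega
  have hr0 : ∀ w, F w 0 = 0 := fun w => by
    have := hr w 0 0
    rw [add_zero] at this
    omega
  have hln : ∀ v w, F (-v) w = -F v w := fun v w => by
    have := hl v (-v) w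
    rw [add_neg_cancel, hl0] at this
    omega
  have hrn : ∀ v w, F v (-w) = -F v w := fun v w => by
    have := hr v w (-w)
    rw [add_neg_cancel, hr0] at this
    omega
  have h1 : ∀ w ∈ G, ∀ v ∈ AddSubgroup.closure G, m ∣ F v w := by
    intro w hw v hv
    induction hv using AddSubgroup.closure_induction with
    | mem x hx => exact hG x hx w hw
    | zero => rw [hl0]; exact dvd_zero _
    | add x y _ _ hx hy => rw [hl]; exact dvd_add hx hy
    | neg x _ hx => rw [hln]; exact (dvd_neg).2 hx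
  intro v hv w hw
  induction hw using AddSubgroup.closure_induction with
  | mem x hx => exact h1 x hx v hv
  | zero => rw [hr0]; exact dvd_zero _
  | add x y _ _ hx hy => rw [hr]; exact dvd_add hx hy
  | neg x _ hx => rw [hrn]; exact (dvd_neg).2 hx

theorem closure_even (hH : H.IsCohomology) (G : Set (Fin 23 → ℤ))
    (h1 : ∀ v ∈ G, 4 ∣ H.disc v) (h2 : ∀ v ∈ G, ∀ w ∈ G, Bf H v w % 2 = 0) :
    ∀ v ∈ AddSubgroup.closure G, 4 ∣ H.disc v := by
  have key := closure_bilin G 2 (Bf H) Bf_add_left (Bf_add_right hH)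
    (fun v hv w hw => Int.dvd_of_emod_eq_zero (h2 v hv w hw))
  intro v hv
  induction hv using AddSubgroup.closure_induction with
  | mem x hx => exact h1 x hx
  | zero =>
    have : H.disc (0 : Fin 23 → ℤ) = 0 := by
      unfold disc
      rw [ip_zero_left, ip_zero_right]
      norm_num
    rw [this]
    exact dvd_zero _
  | add x y hx hy h1 h2 =>
    have e := disc_two hH 1 1 x y
    rw [one_smul, one_smul] at e
    have := key x hx y hy
    omega
  | neg x hx h1 =>
    have e := hH.disc_comb (-1) 0 x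
    rw [zero_smul, add_zero, neg_one_smul] at e
    rw [e]
    simpa using h1

theorem closure_three (hH : H.IsCohomology) (G : Set (Fin 23 → ℤ)) (a : Fin 23 → ℤ)
    (h2 : ∀ v ∈ G, ∀ w ∈ G, 9 ∣ Bf H v w - 3 * (H.ip v a * H.ip w a)) :
    ∀ v ∈ AddSubgroup.closure G, H.disc v % 18 = 0 ∨ H.disc v % 18 = 12 := by
  have key := closure_bilin G 9 (fun v w => Bf H v w - 3 * (H.ip v a * H.ip w a))
    (fun u v w => by
      simp only [Bf_add_left, ip_add_left]
      ring)
    (fun u v w => by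
      simp only [Bf_add_right hH, ip_add_left]
      ring) h2
  intro v hv
  have e1 := key v hv v hv
  have e2 := Pool.Agent.X328.CF.disc_even hH v
  rw [disc_eq_Bf hH] at e2 ⊢
  have e3 : (H.ip v a * H.ip v a) % 3 = 0 ∨ (H.ip v a * H.ip v a) % 3 = 1 := by
    generalize H.ip v a = x
    have : x % 3 = 0 ∨ x % 3 = 1 ∨ x % 3 = 2 := by omega
    rcases this with h | h | h <;> simp [Int.mul_emod, h]
  generalize H.ip v a * H.ip v a = y at *
  omega

theorem small_mono {D D' : ℤ} (h : D ≤ D') : Small H D ≤ Small H D' :=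
  AddSubgroup.closure_mono fun _ hv => ⟨hv.1, hv.2.trans h⟩

/-- **Cubic fourfolds with a plane.** -/
theorem plane_case (hH : H.IsCohomology) (hR : KnownRat H) (hP : Nonempty X.Plane) :
    Good H ∨ ∀ v ∈ Small H 31, 4 ∣ H.disc v := by
  by_contra hcon
  push Not at hcon
  obtain ⟨hbad, v, hv, hv4⟩ := hcon
  have c : Ctx H := ⟨hH, hR, hbad⟩
  obtain ⟨P'⟩ := hP
  have hP : H.IsPl (H.cl P') := (hH.cl_range _).1 ⟨P', rfl⟩
  have hval : ∀ v, H.IsHodge v → H.disc v ≤ 31 → H.disc v = 0 ∨ H.disc v = 8 ∨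
      (H.disc v = 12 ∨ H.disc v = 20 ∨ H.disc v = 24) := by
    intro v hv h
    have h1 := c.d hv
    have h2 := c.pl_two hP hv
    omega
  have h8 : ∀ v w, H.IsHodge v → H.IsHodge w → H.disc v = 8 → Bf H v w % 2 = 0 := by
    intro v w hv hw h
    obtain ⟨ε, k, g, hε, e, hg, hgh, hgn⟩ := norm1 hH hv (by rw [h]; norm_num)
    have hgP : H.IsPl g := ⟨hg, hgh, by omega⟩
    have h1 := c.Bf_plane hgP hw
    rw [e, Bf_add_left, Bf_smul_left, Bf_smul_left, Bf_h_left hH]
    rcases hε with rfl | rfl <;> omega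
  refine hv4 (closure_even hH _ (fun v hv => ?_) (fun v hv w hw => ?_) v hv)
  · have := hval v hv.1 hv.2
    omega
  · rcases hval v hv.1 hv.2 with h | h | h
    · rw [Bf_zero hH hv.1 h]
      norm_num
    · exact h8 v w hv.1 hw.1 h
    rcases hval w hw.1 hw.2 with h' | h' | h'
    · rw [Bf_comm hH, Bf_zero hH hw.1 h']
      norm_num
    · rw [Bf_comm hH]
      exact h8 w v hw.1 hv.1 h'
    exact c.pl_odd hP hv.1 hw.1 h h'

namespace Ctx

/-- the case of an odd product -/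
theorem three_case (c : Ctx H) {t : Fin 5 → Fin 23 → ℤ} (ht : Pairs H t)
    (hnp : ∀ P, ¬ H.IsPl P) {a b : Fin 23 → ℤ}
    (ha : Scroll H a) (hb : Scroll H b) (hab : H.ip a b = 1) :
    ∀ v ∈ Small H 24, H.disc v % 18 = 0 ∨ H.disc v % 18 = 12 := by
  have hval : ∀ v, H.IsHodge v → H.disc v ≤ 24 → ∃ (k : ℤ) (g : Fin 23 → ℤ),
      v = g + k • H.h ∧ (g = 0 ∨ Scroll H g ∨ (Prim H g ∧ H.ip g g = 6)) := by
    intro v hv h
    have h1 := c.d hv
    have e8 : H.disc v ≠ 8 := by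
      intro h8
      obtain ⟨ε, k, g, hε, e, hg, hgh, hgn⟩ := norm1 c.hH hv (by rw [h8]; norm_num)
      exact hnp g ⟨hg, hgh, by omega⟩
    have e20 : H.disc v ≠ 20 := by
      intro h8
      obtain ⟨ε, k, g, hε, e, hg, hgh, hgn⟩ := norm1 c.hH hv (by rw [h8]; norm_num)
      exact c.seven hnp ha hb hab hg hgh (by omega)
    have e3 : H.disc v = 0 ∨ H.disc v = 12 ∨ H.disc v = 18 ∨ H.disc v = 24 := by omega
    obtain ⟨k, g, e, hg, hgn⟩ := norm0 c.hH hv (by omega)
    refine ⟨k, g, e, ?_⟩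
    rcases e3 with e3 | e3 | e3 | e3
    · left
      exact c.eq_zero hg.1 (by omega)
    · right
      left
      exact scroll_of hg (by omega)
    · right
      right
      exact ⟨hg, by omega⟩
    · exact (c.eight ht ha hb hab hg (by omega)).elim
  have hha : H.ip H.h a = 0 := by rw [c.hH.comm, ha.2.1]
  have prod : ∀ g g', (g = 0 ∨ Scroll H g ∨ (Prim H g ∧ H.ip g g = 6)) →
      (g' = 0 ∨ Scroll H g' ∨ (Prim H g' ∧ H.ip g' g' = 6)) →
      (3 : ℤ) ∣ H.ip g g' - H.ip g a * H.ip g' a := by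
    have hs6 : ∀ g g', Scroll H g → Prim H g' → H.ip g' g' = 6 →
        (3 : ℤ) ∣ H.ip g g' - H.ip g a * H.ip g' a := by
      intro g g' hg hg' h6
      have e1 := Int.dvd_of_emod_eq_zero (c.six ht ha hb hab hg' h6 hg)
      have e2 := Int.dvd_of_emod_eq_zero (c.six ht ha hb hab hg' h6 ha)
      rw [c.hH.comm g g']
      exact dvd_sub e1 (e2.mul_left _)
    intro g g' h h'
    rcases h with rfl | h | ⟨h, h6⟩
    · rw [ip_zero_left, ip_zero_left, zero_mul, sub_zero]
      exact dvd_zero _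
    · rcases h' with rfl | h' | ⟨h', h6'⟩
      · rw [ip_zero_left, ip_zero_right, mul_zero, sub_zero]
        exact dvd_zero _
      · have := Int.dvd_of_emod_eq_zero (c.t3 ht ha hb hab h h')
        rwa [c.hH.comm a g, c.hH.comm a g'] at this
      · exact hs6 g g' h h' h6'
    · rcases h' with rfl | h' | ⟨h', h6'⟩
      · rw [ip_zero_left, ip_zero_right, mul_zero, sub_zero]
        exact dvd_zero _
      · have := hs6 g' g h' h h6
        rwa [c.hH.comm g' g, mul_comm] at this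
      · have e1 := Int.dvd_of_emod_eq_zero (c.six_six ht ha hb hab h h6 h' h6')
        have e2 := Int.dvd_of_emod_eq_zero (c.six ht ha hb hab h h6 ha)
        exact dvd_sub e1 (e2.mul_right _)
  refine closure_three c.hH _ a fun v hv w hw => ?_
  obtain ⟨k, g, e, hg⟩ := hval v hv.1 hv.2
  obtain ⟨k', g', e', hg'⟩ := hval w hw.1 hw.2
  have hgh : H.ip g H.h = 0 := by
    rcases hg with rfl | h | h
    · exact ip_zero_left _ _
    · exact h.2.1
    · exact h.1.2
  obtain ⟨m, hm⟩ := prod g g' hg hg'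
  have h1 : Bf H v w = 3 * H.ip g g' := by
    rw [e, e', Bf_add_left, Bf_smul_left, Bf_h_left c.hH, Bf_add_right c.hH,
      Bf_smul_right c.hH, Bf_comm c.hH g H.h, Bf_h_left c.hH]
    unfold Bf
    rw [hgh]
    ring
  have h2 : H.ip v a = H.ip g a := by
    rw [e, ip_add_left, ip_smul_left, hha, mul_zero, add_zero]
  have h3 : H.ip w a = H.ip g' a := by
    rw [e', ip_add_left, ip_smul_left, hha, mul_zero, add_zero]
  refine ⟨m, ?_⟩
  rw [h1, h2, h3]
  linear_combination 3 * hm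

/-- the case of even products, discriminants at most `18` -/
theorem even_case18 (c : Ctx H) {t : Fin 5 → Fin 23 → ℤ} (ht : Pairs H t)
    (hev : ∀ s f, Scroll H s → Scroll H f → H.ip s f % 2 = 0) (hnp : ∀ P, ¬ H.IsPl P) :
    ∀ v ∈ Small H 18, 4 ∣ H.disc v := by
  have hval : ∀ v, H.IsHodge v → H.disc v ≤ 18 → H.disc v = 0 ∨ (H.disc v = 12 ∧
      ∃ (k : ℤ) (g : Fin 23 → ℤ), v = g + k • H.h ∧ Scroll H g) := by
    intro v hv h
    have h1 := c.d hv
    have e8 : H.disc v ≠ 8 := by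
      intro h8
      obtain ⟨ε, k, g, hε, e, hg, hgh, hgn⟩ := norm1 c.hH hv (by rw [h8]; norm_num)
      exact hnp g ⟨hg, hgh, by omega⟩
    have e3 : H.disc v = 0 ∨ H.disc v = 12 ∨ H.disc v = 18 := by omega
    rcases e3 with e3 | e3 | e3
    · exact Or.inl e3
    · obtain ⟨k, g, e, hg, hgn⟩ := norm0 c.hH hv (by omega)
      exact Or.inr ⟨e3, k, g, e, scroll_of hg (by omega)⟩
    · obtain ⟨k, g, e, hg, hgn⟩ := norm0 c.hH hv (by omega)
      exact (c.ev_six ht hev hg (by omega)).elim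
  refine closure_even c.hH _ (fun v hv => ?_) (fun v hv w hw => ?_)
  · rcases hval v hv.1 hv.2 with h | h <;> omega
  · rcases hval v hv.1 hv.2 with h | ⟨-, k, g, e, hg⟩
    · rw [Bf_zero c.hH hv.1 h]
      norm_num
    rcases hval w hw.1 hw.2 with h | ⟨-, k', g', e', hg'⟩
    · rw [Bf_comm c.hH, Bf_zero c.hH hw.1 h]
      norm_num
    have h1 : Bf H v w = 3 * H.ip g g' := by
      rw [e, e', Bf_add_left, Bf_smul_left, Bf_h_left c.hH, Bf_add_right c.hH,
        Bf_smul_right c.hH, Bf_comm c.hH g H.h, Bf_h_left c.hH]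
      unfold Bf
      rw [hg.2.1]
      ring
    have h2 := hev g g' hg hg'
    rw [h1]
    omega

/-- the case of even products, discriminants at most `24` -/
theorem even_case24 (c : Ctx H) {t : Fin 11 → Fin 23 → ℤ} (ht : Pairs H t)
    (hev : ∀ s f, Scroll H s → Scroll H f → H.ip s f % 2 = 0) (hnp : ∀ P, ¬ H.IsPl P) :
    ∀ v ∈ Small H 24, 4 ∣ H.disc v := by
  have ht5 := ht.cast (m := 5) (by norm_num)
  have hval : ∀ v, H.IsHodge v → H.disc v ≤ 24 → 4 ∣ H.disc v ∧
      ∃ (ε k : ℤ) (g : Fin 23 → ℤ), v = ε • g + k • H.h ∧ (g = 0 ∨ Scroll H g ∨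
        (Prim H g ∧ H.ip g g = 8) ∨ (H.IsHodge g ∧ H.ip g H.h = 1 ∧ H.ip g g = 7)) := by
    intro v hv h
    have h1 := c.d hv
    have e8 : H.disc v ≠ 8 := by
      intro h8
      obtain ⟨ε, k, g, hε, e, hg, hgh, hgn⟩ := norm1 c.hH hv (by rw [h8]; norm_num)
      exact hnp g ⟨hg, hgh, by omega⟩
    have e18 : H.disc v ≠ 18 := by
      intro h8
      obtain ⟨k, g, e, hg, hgn⟩ := norm0 c.hH hv (by omega)
      exact c.ev_six ht5 hev hg (by omega)
    have e3 : H.disc v = 0 ∨ H.disc v = 12 ∨ H.disc v = 24 ∨ H.disc v = 20 := by omega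
    refine ⟨by omega, ?_⟩
    rcases e3 with e3 | e3 | e3 | e3
    · obtain ⟨k, g, e, hg, hgn⟩ := norm0 c.hH hv (by omega)
      exact ⟨1, k, g, by rw [one_smul, e], Or.inl (c.eq_zero hg.1 (by omega))⟩
    · obtain ⟨k, g, e, hg, hgn⟩ := norm0 c.hH hv (by omega)
      exact ⟨1, k, g, by rw [one_smul, e], Or.inr (Or.inl (scroll_of hg (by omega)))⟩
    · obtain ⟨k, g, e, hg, hgn⟩ := norm0 c.hH hv (by omega)
      exact ⟨1, k, g, by rw [one_smul, e], Or.inr (Or.inr (Or.inl ⟨hg, by omega⟩))⟩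
    · obtain ⟨ε, k, g, hε, e, hg, hgh, hgn⟩ := norm1 c.hH hv (by omega)
      exact ⟨ε, k, g, e, Or.inr (Or.inr (Or.inr ⟨hg, hgh, by omega⟩))⟩
  -- products
  have p12 : ∀ s w, Scroll H s → (Scroll H w ∨ (Prim H w ∧ H.ip w w = 8) ∨
      (H.IsHodge w ∧ H.ip w H.h = 1 ∧ H.ip w w = 7)) → Bf H s w % 2 = 0 := by
    intro s w hs hw
    have h1 : Bf H s w = 3 * H.ip s w := by
      unfold Bf
      rw [hs.2.1]
      ring
    rw [h1]
    rcases hw with hw | ⟨hw, h8⟩ | ⟨hw, hwh, h7⟩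
    · have := hev s w hs hw
      omega
    · have := c.ev_eight ht5 hev hw h8 hs
      rw [c.hH.comm s w]
      omega
    · have := c.seven_vals hnp hw hwh h7 hs
      rw [c.hH.comm s w]
      omega
  have d20 : ∀ w, H.ip w H.h = 1 → H.ip w w = 7 → H.disc w = 20 := by
    intro w h h'
    unfold disc
    rw [c.hH.comm H.h w, h, h']
    norm_num
  have prod : ∀ v w, (v = 0 ∨ Scroll H v ∨ (Prim H v ∧ H.ip v v = 8) ∨
      (H.IsHodge v ∧ H.ip v H.h = 1 ∧ H.ip v v = 7)) → (w = 0 ∨ Scroll H w ∨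
      (Prim H w ∧ H.ip w w = 8) ∨ (H.IsHodge w ∧ H.ip w H.h = 1 ∧ H.ip w w = 7)) →
      Bf H v w % 2 = 0 := by
    intro v w hv hw
    rcases hv with rfl | hv | ⟨hv, hv8⟩ | ⟨hv, hvh, hv7⟩
    · unfold Bf
      rw [ip_zero_left, ip_zero_left]
      norm_num
    · rcases hw with rfl | hw
      · unfold Bf
        rw [ip_zero_left, ip_zero_right]
        norm_num
      · exact p12 v w hv hw
    · rcases hw with rfl | hw | ⟨hw, hw8⟩ | ⟨hw, hwh, hw7⟩
      · unfold Bf
        rw [ip_zero_left, ip_zero_right]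
        norm_num
      · rw [Bf_comm c.hH]
        exact p12 w v hw (Or.inr (Or.inl ⟨hv, hv8⟩))
      · exact c.ev_24_24 ht hev hv hv8 hw hw8
      · rw [Bf_comm c.hH]
        exact c.ev_20_24 hw (d20 w hwh hw7) hv hv8
    · rcases hw with rfl | hw | ⟨hw, hw8⟩ | ⟨hw, hwh, hw7⟩
      · unfold Bf
        rw [ip_zero_left, ip_zero_right]
        norm_num
      · rw [Bf_comm c.hH]
        exact p12 w v hw (Or.inr (Or.inr ⟨hv, hvh, hv7⟩))
      · exact c.ev_20_24 hv (d20 v hvh hv7) hw hw8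
      · exact c.ev_20_20 ht hev hnp hv hvh hv7 hw hwh hw7
  refine closure_even c.hH _ (fun v hv => (hval v hv.1 hv.2).1) (fun v hv w hw => ?_)
  obtain ⟨-, ε, k, g, e, hg⟩ := hval v hv.1 hv.2
  obtain ⟨-, ε', k', g', e', hg'⟩ := hval w hw.1 hw.2
  have h1 := Int.dvd_of_emod_eq_zero (prod g g' hg hg')
  apply Int.emod_eq_zero_of_dvd
  have h2 : Bf H v w = ε * ε' * Bf H g g' := by
    rw [e, e', Bf_add_left, Bf_smul_left k, Bf_h_left c.hH, Bf_add_right c.hH,
      Bf_smul_right c.hH k', Bf_comm c.hH (ε • g) H.h, Bf_h_left c.hH, Bf_smul_left,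
      Bf_smul_right c.hH]
    ring
  rw [h2]
  exact h1.mul_left _

/-- the two cases -/
theorem split (c : Ctx H) : (∀ s f, Scroll H s → Scroll H f → H.ip s f % 2 = 0) ∨
    ∃ a b, Scroll H a ∧ Scroll H b ∧ H.ip a b = 1 := by
  by_contra hcon
  push Not at hcon
  obtain ⟨⟨s, f, hs, hf, h⟩, h2⟩ := hcon
  have e : H.ip s f = 1 ∨ H.ip s f = -1 := by
    rcases c.cases hs hf with h' | h' | h' <;> omega
  rcases e with e | e
  · exact h2 s f hs hf e
  · exact h2 s (-f) hs hf.neg (by rw [ip_neg_right, e, neg_neg])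

end Ctx

/-- **Five pairs of scroll classes.** -/
theorem five_case (hH : H.IsCohomology) (hR : KnownRat H) {t : Fin 5 → Fin 23 → ℤ}
    (ht : Pairs H t) : Good H ∨ (∀ v ∈ Small H 18, 4 ∣ H.disc v) ∨
      ∀ v ∈ Small H 18, H.disc v % 18 = 0 ∨ H.disc v % 18 = 12 := by
  by_cases hbad : Good H
  · exact Or.inl hbad
  have c : Ctx H := ⟨hH, hR, hbad⟩
  right
  by_cases hP : Nonempty X.Plane
  · left
    intro v hv
    exact (plane_case hH hR hP).resolve_left hbad v (small_mono (by norm_num) hv)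
  have hnp : ∀ P, ¬ H.IsPl P := fun P h => by
    obtain ⟨P', -⟩ := (hH.cl_range P).2 h
    exact hP ⟨P'⟩
  rcases c.split with hev | ⟨a, b, ha, hb, hab⟩
  · left
    exact c.even_case18 ht hev hnp
  · right
    intro v hv
    exact c.three_case ht hnp ha hb hab v (small_mono (by norm_num) hv)

/-- **Eleven pairs of scroll classes.** -/
theorem eleven_case (hH : H.IsCohomology) (hR : KnownRat H) {t : Fin 11 → Fin 23 → ℤ}
    (ht : Pairs H t) : Good H ∨ (∀ v ∈ Small H 24, 4 ∣ H.disc v) ∨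
      ∀ v ∈ Small H 24, H.disc v % 18 = 0 ∨ H.disc v % 18 = 12 := by
  by_cases hbad : Good H
  · exact Or.inl hbad
  have c : Ctx H := ⟨hH, hR, hbad⟩
  right
  by_cases hP : Nonempty X.Plane
  · left
    intro v hv
    exact (plane_case hH hR hP).resolve_left hbad v (small_mono (by norm_num) hv)
  have hnp : ∀ P, ¬ H.IsPl P := fun P h => by
    obtain ⟨P', -⟩ := (hH.cl_range P).2 h
    exact hP ⟨P'⟩
  rcases c.split with hev | ⟨a, b, ha, hb, hab⟩
  · left
    exact c.even_case24 ht hev hnp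
  · right
    exact c.three_case (ht.cast (m := 5) (by norm_num)) hnp ha hb hab

/-- multiples prime to six -/
theorem obstr_of_multiple {m d : ℤ} (hm : m % 2 = 1 ∧ m % 3 ≠ 0) (hd : d % 2 = 0)
    (h : 4 ∣ m ^ 2 * d ∨ (m ^ 2 * d % 18 = 0 ∨ m ^ 2 * d % 18 = 12)) :
    4 ∣ d ∨ (d % 18 = 0 ∨ d % 18 = 12) := by
  have c2 : IsCoprime (4 : ℤ) (m ^ 2) := by
    obtain ⟨k, hk⟩ : ∃ k, m = 2 * k + 1 := ⟨m / 2, by omega⟩
    refine ⟨-(k ^ 2 + k), 1, ?_⟩
    rw [hk]
    ring
  rcases h with h | h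
  · exact Or.inl (c2.dvd_of_dvd_mul_left h)
  · right
    obtain ⟨q, hq⟩ : ∃ q, m ^ 2 = 3 * q + 1 := by
      have h3 : m % 3 = 1 ∨ m % 3 = 2 := by omega
      rcases h3 with h3 | h3
      · obtain ⟨k, hk⟩ : ∃ k, m = 3 * k + 1 := ⟨m / 3, by omega⟩
        exact ⟨3 * k ^ 2 + 2 * k, by rw [hk]; ring⟩
      · obtain ⟨k, hk⟩ : ∃ k, m = 3 * k + 2 := ⟨m / 3, by omega⟩
        exact ⟨3 * k ^ 2 + 4 * k + 1, by rw [hk]; ring⟩
    have e1 : m ^ 2 * d = 3 * (q * d) + d := by rw [hq]; ring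
    have e2 : d % 3 = 0 := by omega
    obtain ⟨e, he⟩ : ∃ e, d = 3 * e := ⟨d / 3, by omega⟩
    have e3 : m ^ 2 * d = 9 * (q * e) + d := by rw [hq, he]; ring
    omega

/-- the two obstructions exclude admissible discriminants -/
theorem not_admissible {d : ℤ} (h : 4 ∣ d ∨ (d % 18 = 0 ∨ d % 18 = 12)) : ¬ Admissible d := by
  rintro ⟨h1, h2, h3, h4⟩
  rcases h with h | h | h
  · exact h2 h
  · exact h3 (by omega)
  · -- `d = 6 m`, `m ≡ 2 mod 3` odd
    obtain ⟨m, hm⟩ : ∃ m : ℤ, d = 6 * m := ⟨d / 6, by omega⟩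
    have hm3 : m % 3 = 2 := by omega
    have hm2 : m % 2 = 1 := by omega
    obtain ⟨N, hN⟩ : ∃ N : ℕ, m = N := ⟨m.toNat, by omega⟩
    -- a prime factor of `N` which is `2` modulo `3`
    have key : ∀ N : ℕ, N % 3 = 2 → ∃ p : ℕ, p.Prime ∧ p ∣ N ∧ p % 3 = 2 := by
      intro N
      induction N using Nat.strong_induction_on with
      | _ N ih =>
        intro h
        have hN1 : N ≠ 1 := by omega
        obtain ⟨p, hp, hpN⟩ := Nat.exists_prime_and_dvd hN1
        obtain ⟨M, rfl⟩ := hpN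
        have hMpos : 0 < M := by
          rcases Nat.eq_zero_or_pos M with h0 | h0
          · rw [h0, mul_zero] at h
            norm_num at h
          · exact h0
        by_cases hp2 : p % 3 = 2
        · exact ⟨p, hp, dvd_mul_right _ _, hp2⟩
        · have hM : M % 3 = 2 := by
            have e1 : (p * M) % 3 = ((p % 3) * (M % 3)) % 3 := Nat.mul_mod _ _ _
            have e2 : p % 3 = 0 ∨ p % 3 = 1 := by omega
            have e3 : M % 3 = 0 ∨ M % 3 = 1 ∨ M % 3 = 2 := by omega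
            rcases e2 with e2 | e2 <;> rcases e3 with e3 | e3 | e3 <;>
              rw [e2, e3] at e1 <;> omega
          have hlt : M < p * M := by
            have := hp.two_le
            nlinarith
          obtain ⟨q, hq, hqM, hq2⟩ := ih M hlt hM
          exact ⟨q, hq, hqM.mul_left _, hq2⟩
    obtain ⟨p, hp, hpN, hp2⟩ := key N (by omega)
    refine h4 p hp (fun h => ?_) ?_ hp2
    · rw [h] at hpN
      omega
    · rw [hm, hN]
      exact (Int.natCast_dvd_natCast.2 hpN).mul_left _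

end Pool.Agent.Run7.h762.SC
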