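import Pool.Agent.Run7.h762.SC.Basic

/-!
# Five pairs of scroll classes: no path of odd products
-/

set_option autoImplicit false

namespace Pool.Agent.Run7.h762.SC

open Finset Pool.Agent.Y95.Q Pool.Agent.Y95.Q.H4

variable {X : CubicFourfold} {H : H4 X}

/-- small numbers -/
def R5 : List ℤ := [-2, -1, 0, 1, 2]

theorem mem_R5 {x : ℤ} (h : -2 ≤ x ∧ x ≤ 2) : x ∈ R5 := by
  have : x = -2 ∨ x = -1 ∨ x = 0 ∨ x = 1 ∨ x = 2 := by omega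
  rcases this with rfl | rfl | rfl | rfl | rfl <;> decide

/-- the norm of a combination of four scroll classes, the first three forming a path -/
def N4 (k : ℤ × ℤ × ℤ × ℤ) (x y z : ℤ) : ℤ :=
  k.1 ^ 2 * 4 + k.2.1 ^ 2 * 4 + k.2.2.1 ^ 2 * 4 + k.2.2.2 ^ 2 * 4 + 2 * (k.1 * k.2.1) * 1 +
    2 * (k.1 * k.2.2.1) * 0 + 2 * (k.2.1 * k.2.2.1) * 1 + 2 * (k.1 * k.2.2.2) * x +
    2 * (k.2.1 * k.2.2.2) * y + 2 * (k.2.2.1 * k.2.2.2) * z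

/-- the combinations which are used -/
def K4 : List (ℤ × ℤ × ℤ × ℤ) :=
  [(0, 1, 1, -1), (1, 1, 0, -1), (1, -1, 1, -1), (1, -1, 1, 1), (1, 0, -1, -1), (1, 0, -1, 1),
    (0, 1, -1, -1), (0, 1, -1, 1), (0, 1, 1, -2), (0, 1, 1, 2), (1, 0, 1, -1), (1, 0, 1, 1),
    (1, -1, 2, -2), (1, -1, 2, 2), (1, -1, 0, -1), (1, -1, 0, 1), (1, -2, 0, -1), (1, -2, 0, 1),
    (1, 1, -1, -1), (1, 1, -1, 1), (1, -1, 2, -1), (1, -1, 2, 1)]

theorem arith4 : ∀ x ∈ R5, ∀ y ∈ R5, ∀ z ∈ R5,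
    (∀ k ∈ K4, 0 ≤ N4 k x y z ∧ N4 k x y z ≠ 2 ∧ N4 k x y z ≠ 14) →
    y = 0 ∧ (x = 1 ∨ x = -1) ∧ (z = 1 ∨ z = -1) := by
  decide +kernel

/-- the norm of a combination of five scroll classes -/
def N5 (k : ℤ × ℤ × ℤ × ℤ × ℤ) (z z' w : ℤ) : ℤ :=
  k.1 ^ 2 * 4 + k.2.1 ^ 2 * 4 + k.2.2.1 ^ 2 * 4 + k.2.2.2.1 ^ 2 * 4 + k.2.2.2.2 ^ 2 * 4 +
    2 * (k.1 * k.2.1) * 1 +
    2 * (k.1 * k.2.2.1) * 0 + 2 * (k.2.1 * k.2.2.1) * 1 + 2 * (k.1 * k.2.2.2.1) * 1 +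
    2 * (k.2.1 * k.2.2.2.1) * 0 + 2 * (k.2.2.1 * k.2.2.2.1) * z +
    2 * (k.1 * k.2.2.2.2) * 1 + 2 * (k.2.1 * k.2.2.2.2) * 0 + 2 * (k.2.2.1 * k.2.2.2.2) * z' +
    2 * (k.2.2.2.1 * k.2.2.2.2) * w

/-- the combinations which are used -/
def K5 : List (ℤ × ℤ × ℤ × ℤ × ℤ) :=
  [(0, 1, 0, -1, -1), (0, 1, 0, -1, 1), (0, 1, -1, -1, -1), (0, 1, -1, -1, 1), (0, 1, -1, 1, -1),
    (0, 1, -1, 1, 1)]

theorem arith5 : ∀ z ∈ ([1, -1] : List ℤ), ∀ z' ∈ ([1, -1] : List ℤ), ∀ w ∈ R5,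
    ¬ (∀ k ∈ K5, 0 ≤ N5 k z z' w ∧ N5 k z z' w ≠ 2 ∧ N5 k z z' w ≠ 14) := by
  decide +kernel

namespace Ctx

/-- products of scroll classes -/
theorem bound (c : Ctx H) {s t : Fin 23 → ℤ} (hs : Scroll H s) (ht : Scroll H t) (h1 : s ≠ t)
    (h2 : s ≠ -t) : -2 ≤ H.ip s t ∧ H.ip s t ≤ 2 := by
  have a := c.n2 hs.prim ht.prim 1 (-1)
  have b := c.n2 hs.prim ht.prim 1 1
  rw [hs.2.2, ht.2.2] at a b
  have a0 : H.ip s t ≠ 4 := by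
    intro h
    apply h1
    have := c.eq_zero (u := s - t) (H.isHodge_sub hs.1 ht.1) (by
      rw [ip_sub_left, ip_sub_right, ip_sub_right, c.hH.comm t s, hs.2.2, ht.2.2, h]
      norm_num)
    exact sub_eq_zero.1 this
  have b0 : H.ip s t ≠ -4 := by
    intro h
    apply h2
    have := c.eq_zero (u := s + t) (H.isHodge_add hs.1 ht.1) (by
      rw [ip_add_left, ip_add_right, ip_add_right, c.hH.comm t s, hs.2.2, ht.2.2, h]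
      norm_num)
    exact eq_neg_of_add_eq_zero_left this
  omega

/-- the fourth class -/
theorem four (c : Ctx H) {a b d e : Fin 23 → ℤ} (ha : Scroll H a) (hb : Scroll H b)
    (hd : Scroll H d) (he : Scroll H e) (hab : H.ip a b = 1) (hbd : H.ip b d = 1)
    (had : H.ip a d = 0) (h1 : a ≠ e ∧ a ≠ -e) (h2 : b ≠ e ∧ b ≠ -e) (h3 : d ≠ e ∧ d ≠ -e) :
    H.ip b e = 0 ∧ (H.ip a e = 1 ∨ H.ip a e = -1) ∧ (H.ip d e = 1 ∨ H.ip d e = -1) := by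
  have hx := mem_R5 (c.bound ha he h1.1 h1.2)
  have hy := mem_R5 (c.bound hb he h2.1 h2.2)
  have hz := mem_R5 (c.bound hd he h3.1 h3.2)
  refine arith4 _ hx _ hy _ hz fun k _ => ?_
  exact c.n4 ha.prim hb.prim hd.prim he.prim k.1 k.2.1 k.2.2.1 k.2.2.2 (by
    rw [ha.2.2, hb.2.2, hd.2.2, he.2.2, hab, hbd, had]
    rfl)

/-- a path has length at most four -/
theorem path (c : Ctx H) {a b d e f : Fin 23 → ℤ} (ha : Scroll H a) (hb : Scroll H b)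
    (hd : Scroll H d) (he : Scroll H e) (hf : Scroll H f) (hab : H.ip a b = 1)
    (hbd : H.ip b d = 1) (had : H.ip a d = 0) (h1 : a ≠ e ∧ a ≠ -e) (h2 : b ≠ e ∧ b ≠ -e)
    (h3 : d ≠ e ∧ d ≠ -e) (h4 : a ≠ f ∧ a ≠ -f) (h5 : b ≠ f ∧ b ≠ -f) (h6 : d ≠ f ∧ d ≠ -f)
    (h7 : e ≠ f ∧ e ≠ -f) : False := by
  have key : ∀ e f : Fin 23 → ℤ, Scroll H e → Scroll H f → H.ip b e = 0 → H.ip b f = 0 →
      H.ip a e = 1 → H.ip a f = 1 → (H.ip d e = 1 ∨ H.ip d e = -1) →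
      (H.ip d f = 1 ∨ H.ip d f = -1) → (-2 ≤ H.ip e f ∧ H.ip e f ≤ 2) → False := by
    intro e f he hf e1 e2 e3 e4 e5 e6 e7
    refine arith5 (H.ip d e) (by simpa using e5) (H.ip d f) (by simpa using e6) _ (mem_R5 e7)
      fun k _ => ?_
    exact c.n5 ha.prim hb.prim hd.prim he.prim hf.prim k.1 k.2.1 k.2.2.1 k.2.2.2.1 k.2.2.2.2 (by
      rw [ha.2.2, hb.2.2, hd.2.2, he.2.2, hf.2.2, hab, hbd, had, e1, e2, e3, e4]
      rfl)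
  obtain ⟨b1, a1, d1⟩ := c.four ha hb hd he hab hbd had h1 h2 h3
  obtain ⟨b2, a2, d2⟩ := c.four ha hb hd hf hab hbd had h4 h5 h6
  have hw := c.bound he hf h7.1 h7.2
  have hd1 : H.ip d (-e) = 1 ∨ H.ip d (-e) = -1 := by
    rw [ip_neg_right]
    omega
  have hd2 : H.ip d (-f) = 1 ∨ H.ip d (-f) = -1 := by
    rw [ip_neg_right]
    omega
  rcases a1 with a1 | a1 <;> rcases a2 with a2 | a2
  · exact key e f he hf b1 b2 a1 a2 d1 d2 hw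
  · refine key e (-f) he hf.neg b1 (by rw [ip_neg_right, b2, neg_zero]) a1
      (by rw [ip_neg_right, a2, neg_neg]) d1 hd2 (by rw [ip_neg_right]; omega)
  · refine key (-e) f he.neg hf (by rw [ip_neg_right, b1, neg_zero]) b2
      (by rw [ip_neg_right, a1, neg_neg]) a2 hd1 d2 (by rw [ip_neg_left]; omega)
  · refine key (-e) (-f) he.neg hf.neg (by rw [ip_neg_right, b1, neg_zero])
      (by rw [ip_neg_right, b2, neg_zero]) (by rw [ip_neg_right, a1, neg_neg])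
      (by rw [ip_neg_right, a2, neg_neg]) hd1 hd2 (by rw [ip_neg_left, ip_neg_right]; omega)

end Ctx

end Pool.Agent.Run7.h762.SC
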