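import Pool.Agent.Run7.h762.SC.Path

/-!
# Five pairs of scroll classes with an odd product: the obstruction modulo three
-/

set_option autoImplicit false

namespace Pool.Agent.Run7.h762.SC

open Finset Pool.Agent.Y95.Q Pool.Agent.Y95.Q.H4

variable {X : CubicFourfold} {H : H4 X}

/-- `t` is a family of pairwise non-proportional scroll classes -/
def Pairs (H : H4 X) {n : ℕ} (t : Fin n → Fin 23 → ℤ) : Prop :=
  (∀ i, Scroll H (t i)) ∧ ∀ i j, i ≠ j → t i ≠ t j ∧ t i ≠ -t j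

/-- the indices of a family which avoid a finite set -/
theorem avoid {n : ℕ} {t : Fin n → Fin 23 → ℤ} (ht : Pairs H t) (F : Finset (Fin 23 → ℤ))
    (m : ℕ) (hm : F.card + m ≤ n) : ∃ I : Finset (Fin n), m ≤ I.card ∧
      ∀ i ∈ I, ∀ x ∈ F, x ≠ t i ∧ x ≠ -t i := by
  classical
  let B : (Fin 23 → ℤ) → Finset (Fin n) := fun x => univ.filter fun i => x = t i ∨ x = -t i
  have hB : ∀ x ∈ F, (B x).card ≤ 1 := by
    intro x _
    rw [Finset.card_le_one]
    intro i hi j hj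
    rw [mem_filter] at hi hj
    by_contra hij
    obtain ⟨h1, h2⟩ := ht.2 i j hij
    rcases hi.2 with h | h <;> rcases hj.2 with h' | h'
    · exact h1 (h.symm.trans h')
    · exact h2 (h.symm.trans h')
    · exact h2 (by rw [← h', h, neg_neg])
    · exact h1 (neg_injective (h.symm.trans h'))
  refine ⟨univ \ F.biUnion B, ?_, ?_⟩
  · have h1 : (F.biUnion B).card ≤ F.card * 1 := card_biUnion_le_card_mul _ _ _ hB
    have h2 := le_card_sdiff (F.biUnion B) (univ : Finset (Fin n))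
    rw [card_univ, Fintype.card_fin] at h2
    omega
  · intro i hi x hx
    rw [mem_sdiff, mem_biUnion] at hi
    by_contra hcon
    apply hi.2
    refine ⟨x, hx, ?_⟩
    rw [mem_filter]
    refine ⟨mem_univ _, ?_⟩
    by_contra h
    push Not at h
    exact hcon h

theorem exists_two {n : ℕ} {t : Fin n → Fin 23 → ℤ} (ht : Pairs H t)
    (F : Finset (Fin 23 → ℤ)) (hm : F.card + 2 ≤ n) : ∃ i j, i ≠ j ∧
      (∀ x ∈ F, x ≠ t i ∧ x ≠ -t i) ∧ ∀ x ∈ F, x ≠ t j ∧ x ≠ -t j := by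
  obtain ⟨I, hI, h⟩ := avoid ht F 2 hm
  obtain ⟨i, hi, j, hj, hij⟩ := Finset.one_lt_card.1 (show 1 < I.card by omega)
  exact ⟨i, j, hij, h i hi, h j hj⟩

/-- the norm of a combination of three scroll classes -/
def N3 (k : ℤ × ℤ × ℤ) (x y : ℤ) : ℤ :=
  k.1 ^ 2 * 4 + k.2.1 ^ 2 * 4 + k.2.2 ^ 2 * 4 + 2 * (k.1 * k.2.1) * 1 +
    2 * (k.1 * k.2.2) * x + 2 * (k.2.1 * k.2.2) * y

/-- the combinations which are used -/
def K3 : List (ℤ × ℤ × ℤ) := [(1, 1, -1), (1, -1, -1), (1, -1, 1), (1, 1, -2), (1, 1, 2)]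

theorem arith3 : ∀ x ∈ R5, ∀ y ∈ R5,
    (∀ k ∈ K3, 0 ≤ N3 k x y ∧ N3 k x y ≠ 2 ∧ N3 k x y ≠ 14) →
    ¬ (x = 0 ∧ y % 2 = 1) → ¬ (x % 2 = 1 ∧ y = 0) → (x - y) % 3 = 0 ∧ x % 3 ≠ 0 := by
  decide +kernel

namespace Ctx

/-- the three cases of a product -/
theorem cases (c : Ctx H) {s t : Fin 23 → ℤ} (hs : Scroll H s) (ht : Scroll H t) :
    (s = t ∧ H.ip s t = 4) ∨ (s = -t ∧ H.ip s t = -4) ∨
      ((s ≠ t ∧ s ≠ -t) ∧ -2 ≤ H.ip s t ∧ H.ip s t ≤ 2) := by
  by_cases h1 : s = t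
  · left
    refine ⟨h1, ?_⟩
    rw [h1, ht.2.2]
  by_cases h2 : s = -t
  · right
    left
    refine ⟨h2, ?_⟩
    rw [h2, ip_neg_left, ht.2.2]
  exact Or.inr (Or.inr ⟨⟨h1, h2⟩, c.bound hs ht h1 h2⟩)

theorem no_path (c : Ctx H) {t : Fin 5 → Fin 23 → ℤ} (ht : Pairs H t) {a b d : Fin 23 → ℤ}
    (ha : Scroll H a) (hb : Scroll H b) (hd : Scroll H d) (hab : H.ip a b % 2 = 1)
    (hbd : H.ip b d % 2 = 1) : H.ip a d ≠ 0 := by
  classical
  have key : ∀ a d : Fin 23 → ℤ, Scroll H a → Scroll H d → H.ip a b = 1 → H.ip b d = 1 →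
      H.ip a d ≠ 0 := by
    intro a d ha hd hab hbd had
    obtain ⟨i, j, hij, h1, h2⟩ := exists_two ht {a, b, d} (by
      have := Finset.card_le_three (a := a) (b := b) (c := d)
      omega)
    exact c.path ha hb hd (ht.1 i) (ht.1 j) hab hbd had (h1 a (by simp)) (h1 b (by simp))
      (h1 d (by simp)) (h2 a (by simp)) (h2 b (by simp)) (h2 d (by simp)) (ht.2 i j hij)
  intro had
  have e1 : H.ip a b = 1 ∨ H.ip a b = -1 := by
    rcases c.cases ha hb with h | h | h <;> omega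
  have e2 : H.ip b d = 1 ∨ H.ip b d = -1 := by
    rcases c.cases hb hd with h | h | h <;> omega
  rcases e1 with e1 | e1 <;> rcases e2 with e2 | e2
  · exact key a d ha hd e1 e2 had
  · exact key a (-d) ha hd.neg e1 (by rw [ip_neg_right, e2, neg_neg])
      (by rw [ip_neg_right, had, neg_zero])
  · exact key (-a) d ha.neg hd (by rw [ip_neg_left, e1, neg_neg]) e2
      (by rw [ip_neg_left, had, neg_zero])
  · exact key (-a) (-d) ha.neg hd.neg (by rw [ip_neg_left, e1, neg_neg])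
      (by rw [ip_neg_right, e2, neg_neg]) (by rw [ip_neg_left, ip_neg_right, had]; norm_num)

theorem q3 (c : Ctx H) {t : Fin 5 → Fin 23 → ℤ} (ht : Pairs H t) {a b e : Fin 23 → ℤ}
    (ha : Scroll H a) (hb : Scroll H b) (he : Scroll H e) (hab : H.ip a b = 1) :
    (H.ip a e - H.ip b e) % 3 = 0 ∧ H.ip a e % 3 ≠ 0 := by
  have hba : H.ip b a = 1 := by rw [c.hH.comm, hab]
  rcases c.cases ha he with ⟨h, h'⟩ | ⟨h, h'⟩ | ⟨h, h'⟩
  · rw [h'] 
    rw [← h, hba]
    norm_num
  · have h1 : e = -a := by rw [h, neg_neg]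
    rw [h', h1, ip_neg_right, hba]
    norm_num
  rcases c.cases hb he with ⟨g, g'⟩ | ⟨g, g'⟩ | ⟨g, g'⟩
  · rw [g', ← g, hab]
    norm_num
  · have h1 : e = -b := by rw [g, neg_neg]
    rw [g', h1, ip_neg_right, hab]
    norm_num
  refine arith3 _ (mem_R5 h') _ (mem_R5 g') (fun k _ => ?_) ?_ ?_
  · exact c.n3 ha.prim hb.prim he.prim k.1 k.2.1 k.2.2 (by
      rw [ha.2.2, hb.2.2, he.2.2, hab]
      rfl)
  · rintro ⟨h1, h2⟩
    exact c.no_path ht (a := a) (b := b) (d := e) ha hb he (by rw [hab]; norm_num) h2 h1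
  · rintro ⟨h1, h2⟩
    exact c.no_path ht (a := b) (b := a) (d := e) hb ha he (by rw [hba]; norm_num) h1 h2

/-- the product of two scroll classes modulo three, if one of them has an odd product -/
theorem t3_odd (c : Ctx H) {t : Fin 5 → Fin 23 → ℤ} (ht : Pairs H t) {a e f : Fin 23 → ℤ}
    (ha : Scroll H a) (he : Scroll H e) (hf : Scroll H f) (hae : H.ip a e % 2 = 1) :
    (H.ip e f - H.ip a e * H.ip a f) % 3 = 0 := by
  have e1 : H.ip a e = 1 ∨ H.ip a e = -1 := by
    rcases c.cases ha he with h | h | h <;> omega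
  rcases e1 with e1 | e1
  · have := (c.q3 ht ha he hf e1).1
    rw [e1]
    omega
  · have := (c.q3 ht ha he.neg hf (by rw [ip_neg_right, e1, neg_neg])).1
    rw [ip_neg_left] at this
    rw [e1]
    omega

theorem mul_mod3 {x y x' y' : ℤ} (h1 : (x - x') % 3 = 0) (h2 : (y - y') % 3 = 0) :
    (x * y - x' * y') % 3 = 0 := by
  have e1 : (3 : ℤ) ∣ x - x' := Int.dvd_of_emod_eq_zero h1
  have e2 : (3 : ℤ) ∣ y - y' := Int.dvd_of_emod_eq_zero h2
  apply Int.emod_eq_zero_of_dvd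
  have : x * y - x' * y' = (x - x') * y + x' * (y - y') := by ring
  rw [this]
  exact dvd_add (e1.mul_right _) (e2.mul_left _)

/-- **The product of two scroll classes modulo three.** -/
theorem t3 (c : Ctx H) {t : Fin 5 → Fin 23 → ℤ} (ht : Pairs H t) {a b : Fin 23 → ℤ}
    (ha : Scroll H a) (hb : Scroll H b) (hab : H.ip a b = 1) {e f : Fin 23 → ℤ}
    (he : Scroll H e) (hf : Scroll H f) : (H.ip e f - H.ip a e * H.ip a f) % 3 = 0 := by
  -- first: one of the products with `a`, `b` is odd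
  have key : ∀ e : Fin 23 → ℤ, Scroll H e → (H.ip a e % 2 = 1 ∨ H.ip b e % 2 = 1) →
      (H.ip e f - H.ip a e * H.ip a f) % 3 = 0 := by
    intro e he h
    rcases h with h | h
    · exact c.t3_odd ht ha he hf h
    · have h1 := c.t3_odd ht hb he hf h
      have h2 := (c.q3 ht ha hb he hab).1
      have h3 := (c.q3 ht ha hb hf hab).1
      have h4 := mul_mod3 h2 h3
      omega
  have key2 : ∀ e : Fin 23 → ℤ, Scroll H e → H.ip a e = 2 → H.ip b e = 2 →
      (H.ip e f - H.ip a e * H.ip a f) % 3 = 0 := by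
    intro e he h1 h2
    have hg : Scroll H (e - a) := by
      refine ⟨H.isHodge_sub he.1 ha.1, (he.prim.sub ha.prim).2, ?_⟩
      rw [ip_sub_left, ip_sub_right, ip_sub_right, c.hH.comm e a, he.2.2, ha.2.2, h1]
      norm_num
    have h3 : H.ip b (e - a) = 1 := by
      rw [ip_sub_right, h2, c.hH.comm b a, hab]
      norm_num
    have h4 := key (e - a) hg (Or.inr (by rw [h3]; norm_num))
    rw [ip_sub_left, ip_sub_right, h1, ha.2.2] at h4
    rw [h1]
    omega
  have hq := c.q3 ht ha hb he hab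
  by_cases h1 : H.ip a e % 2 = 1 ∨ H.ip b e % 2 = 1
  · exact key e he h1
  have e1 : H.ip a e = 4 ∨ H.ip a e = -4 ∨ (-2 ≤ H.ip a e ∧ H.ip a e ≤ 2) := by
    rcases c.cases ha he with h | h | h
    · exact Or.inl h.2
    · exact Or.inr (Or.inl h.2)
    · exact Or.inr (Or.inr h.2)
  have e2 : H.ip a e ≠ 4 := by
    intro h
    rcases c.cases ha he with h' | h' | h'
    · apply h1
      right
      rw [← h'.1, c.hH.comm, hab]
      norm_num
    · omega
    · omega
  have e3 : H.ip a e ≠ -4 := by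
    intro h
    rcases c.cases ha he with h' | h' | h'
    · omega
    · apply h1
      right
      have : e = -a := by rw [h'.1, neg_neg]
      rw [this, ip_neg_right, c.hH.comm, hab]
      norm_num
    · omega
  have e4 : H.ip b e ≠ 4 ∧ H.ip b e ≠ -4 ∧ -4 ≤ H.ip b e ∧ H.ip b e ≤ 4 := by
    rcases c.cases hb he with h' | h' | h'
    · exfalso
      apply h1
      left
      rw [← h'.1, hab]
      norm_num
    · exfalso
      apply h1
      left
      have : e = -b := by rw [h'.1, neg_neg]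
      rw [this, ip_neg_right, hab]
      norm_num
    · omega
  have e5 : -2 ≤ H.ip b e ∧ H.ip b e ≤ 2 := by
    rcases c.cases hb he with h' | h' | h'
    · omega
    · omega
    · exact h'.2
  have e6 : (H.ip a e = 2 ∧ H.ip b e = 2) ∨ (H.ip a e = -2 ∧ H.ip b e = -2) := by
    have g0 : H.ip a e ≠ 0 := by omega
    have g1 : H.ip a e = 2 ∨ H.ip a e = -2 := by omega
    have g2 : H.ip b e = 2 ∨ H.ip b e = -2 ∨ H.ip b e = 0 := by omega
    rcases g1 with g1 | g1 <;> rcases g2 with g2 | g2 | g2 <;> omega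
  rcases e6 with ⟨g1, g2⟩ | ⟨g1, g2⟩
  · exact key2 e he g1 g2
  · have := key2 (-e) he.neg (by rw [ip_neg_right, g1, neg_neg]) (by rw [ip_neg_right, g2, neg_neg])
    rw [ip_neg_left, ip_neg_right] at this
    have h2 : -H.ip e f - -H.ip a e * H.ip a f = -(H.ip e f - H.ip a e * H.ip a f) := by ring
    rw [h2] at this
    omega

end Ctx

end Pool.Agent.Run7.h762.SC
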