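import Pool.Agent.Run7.h762.SC.Type3

/-!
# The obstruction modulo three and classes of discriminant 18, 20, 24
-/

set_option autoImplicit false

namespace Pool.Agent.Run7.h762.SC

open Finset Pool.Agent.Y95.Q Pool.Agent.Y95.Q.H4

variable {X : CubicFourfold} {H : H4 X}

theorem z3 {x : ℤ} : x % 3 = 0 ↔ (x : ZMod 3) = 0 := by
  rw [ZMod.intCast_zmod_eq_zero_iff_dvd, Int.dvd_iff_emod_eq_zero]
  norm_num

theorem z3_sq {x : ℤ} (h : x % 3 ≠ 0) : (x : ZMod 3) * x = 1 := by
  have h1 : (x : ZMod 3) ≠ 0 := fun h' => h (z3.2 h')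
  revert h1
  generalize (x : ZMod 3) = y
  revert y
  decide

/-- a scroll class from a difference -/
theorem scroll_of {u : Fin 23 → ℤ} (hu : Prim H u) (h : H.ip u u = 4) : Scroll H u :=
  ⟨hu.1, hu.2, h⟩

namespace Ctx

/-- products of a class of norm six with scroll classes -/
theorem six_vals (c : Ctx H) {v s : Fin 23 → ℤ} (hv : Prim H v) (h6 : H.ip v v = 6)
    (hs : Scroll H s) : H.ip v s = 0 ∨ H.ip v s = 1 ∨ H.ip v s = -1 ∨ H.ip v s = 3 ∨
      H.ip v s = -3 := by
  have a := c.n2 hv hs.prim 1 (-1)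
  have b := c.n2 hv hs.prim 1 1
  rw [hs.2.2, h6] at a b
  have a0 : H.ip v s ≠ 5 := by
    intro h
    have := c.eq_zero (u := v - s) (H.isHodge_sub hv.1 hs.1) (by
      rw [ip_sub_left, ip_sub_right, ip_sub_right, c.hH.comm s v, hs.2.2, h6, h]
      norm_num)
    rw [sub_eq_zero.1 this, hs.2.2] at h6
    norm_num at h6
  have b0 : H.ip v s ≠ -5 := by
    intro h
    have := c.eq_zero (u := v + s) (H.isHodge_add hv.1 hs.1) (by
      rw [ip_add_left, ip_add_right, ip_add_right, c.hH.comm s v, hs.2.2, h6, h]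
      norm_num)
    rw [eq_neg_of_add_eq_zero_left this, ip_neg_left, ip_neg_right, hs.2.2] at h6
    norm_num at h6
  omega

/-- a class of norm six which is a difference of scroll classes -/
theorem six_three (c : Ctx H) {t : Fin 5 → Fin 23 → ℤ} (ht : Pairs H t) {a b : Fin 23 → ℤ}
    (ha : Scroll H a) (hb : Scroll H b) (hab : H.ip a b = 1) {v s f : Fin 23 → ℤ}
    (hv : Prim H v) (h6 : H.ip v v = 6) (hs : Scroll H s) (hf : Scroll H f)
    (h3 : H.ip v s = 3) : H.ip v f % 3 = 0 := by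
  have hg : Scroll H (v - s) := scroll_of (hv.sub hs.prim) (by
    rw [ip_sub_left, ip_sub_right, ip_sub_right, c.hH.comm s v, hs.2.2, h6, h3]
    norm_num)
  have e1 := z3.1 (c.t3 ht ha hb hab hs hg)
  have e2 := z3.1 (c.t3 ht ha hb hab hs hf)
  have e3 := z3.1 (c.t3 ht ha hb hab hg hf)
  rw [z3]
  have e4 : H.ip s (v - s) = -1 := by
    rw [ip_sub_right, c.hH.comm s v, h3, hs.2.2]
    norm_num
  have e5 : H.ip (v - s) f = H.ip v f - H.ip s f := by rw [ip_sub_left]
  rw [e4] at e1
  rw [e5] at e3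
  push_cast at e1 e2 e3
  have e6 : (H.ip a s : ZMod 3) * (H.ip a (v - s) : ZMod 3) + 1 = 0 := by
    linear_combination -e1
  have e7 : (H.ip a s : ZMod 3) + (H.ip a (v - s) : ZMod 3) = 0 := by
    revert e6
    generalize (H.ip a s : ZMod 3) = x
    generalize (H.ip a (v - s) : ZMod 3) = y
    revert x y
    decide
  linear_combination e2 + e3 + (H.ip a f : ZMod 3) * e7

/-- a class of norm six: auxiliary statement -/
theorem six_aux (c : Ctx H) {t : Fin 5 → Fin 23 → ℤ} (ht : Pairs H t) {a b : Fin 23 → ℤ}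
    (ha : Scroll H a) (hb : Scroll H b) (hab : H.ip a b = 1) {v s : Fin 23 → ℤ}
    (hv : Prim H v) (h6 : H.ip v v = 6) (hs : Scroll H s) (h1 : H.ip v s = 1)
    (hval : ∀ f, Scroll H f → H.ip v f = 0 ∨ H.ip v f = 1 ∨ H.ip v f = -1) {f : Fin 23 → ℤ}
    (hf : Scroll H f) (hne : s ≠ f ∧ s ≠ -f) :
    (H.ip s f = 1 ∨ H.ip s f = -1) ∧ (H.ip v f = 1 ∨ H.ip v f = -1) := by
  have key : ∀ f, Scroll H f → H.ip s f ≠ -2 := by
    intro f hf h
    have k1 := c.n3 hv hs.prim hf.prim 1 (-1) 1 rfl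
    have k2 := c.n3 hv hs.prim hf.prim 1 (-2) (-1) rfl
    have k3 := c.n3 hv hs.prim hf.prim 1 1 1 rfl
    rw [h6, hs.2.2, hf.2.2, h1, h] at k1 k2 k3
    rcases hval f hf with e | e | e <;> rw [e] at k1 k2 k3 <;> omega
  have key2 : ∀ f, Scroll H f → H.ip s f = 1 → H.ip v f ≠ 0 := by
    intro f hf h e
    have k1 := c.n3 hv hs.prim hf.prim 1 (-1) (-1) rfl
    rw [h6, hs.2.2, hf.2.2, h1, h, e] at k1
    omega
  have hb1 := c.bound hs hf hne.1 hne.2
  have hq : H.ip s f % 3 ≠ 0 := by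
    intro h
    have e1 := z3.1 (c.t3 ht ha hb hab hs hf)
    have e2 := z3.1 h
    push_cast at e1
    rw [e2] at e1
    have e3 := z3_sq (c.q3 ht ha hb hs hab).2
    have e4 := z3_sq (c.q3 ht ha hb hf hab).2
    have e5 : (H.ip a s : ZMod 3) * (H.ip a f : ZMod 3) = 0 := by linear_combination -e1
    have : (1 : ZMod 3) = 0 := by
      linear_combination (H.ip a s : ZMod 3) * (H.ip a f : ZMod 3) * e5 - e3 -
        (H.ip a s : ZMod 3) * (H.ip a s : ZMod 3) * e4
    exact absurd this (by decide)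
  have k1 := key f hf
  have k2 := key (-f) hf.neg
  rw [ip_neg_right] at k2
  have e1 : H.ip s f = 1 ∨ H.ip s f = -1 := by omega
  refine ⟨e1, ?_⟩
  have e2 : H.ip v f ≠ 0 := by
    rcases e1 with e1 | e1
    · exact key2 f hf e1
    · intro h
      exact key2 (-f) hf.neg (by rw [ip_neg_right, e1, neg_neg])
        (by rw [ip_neg_right, h, neg_zero])
  rcases hval f hf with h | h | h
  · exact absurd h e2
  · exact Or.inl h
  · exact Or.inr h

/-- **A class of norm six has products divisible by three with the scroll classes.** -/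
theorem six (c : Ctx H) {t : Fin 5 → Fin 23 → ℤ} (ht : Pairs H t) {a b : Fin 23 → ℤ}
    (ha : Scroll H a) (hb : Scroll H b) (hab : H.ip a b = 1) {v s : Fin 23 → ℤ}
    (hv : Prim H v) (h6 : H.ip v v = 6) (hs : Scroll H s) : H.ip v s % 3 = 0 := by
  classical
  by_contra hcon
  have hval : ∀ f, Scroll H f → H.ip v f = 0 ∨ H.ip v f = 1 ∨ H.ip v f = -1 := by
    intro f hf
    rcases c.six_vals hv h6 hf with h | h | h | h | h
    · exact Or.inl h
    · exact Or.inr (Or.inl h)
    · exact Or.inr (Or.inr h)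
    · exact absurd (c.six_three ht ha hb hab hv h6 hf hs h) hcon
    · have := c.six_three ht ha hb hab hv h6 hf.neg hs (by rw [ip_neg_right, h, neg_neg])
      exact absurd this hcon
  have key : ∀ v s, Prim H v → H.ip v v = 6 → Scroll H s →
      (∀ f, Scroll H f → H.ip v f = 0 ∨ H.ip v f = 1 ∨ H.ip v f = -1) → H.ip v s = 1 →
      False := by
    intro v s hv h6 hs hval h1
    obtain ⟨i, j, hij, hi, hj⟩ := exists_two ht {s} (by simp)
    have aux := fun {f} (hf : Scroll H f) hne =>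
      c.six_aux ht ha hb hab hv h6 hs h1 hval (f := f) hf hne
    obtain ⟨p1, y1⟩ := aux (ht.1 i) (hi s (by simp))
    obtain ⟨p2, y2⟩ := aux (ht.1 j) (hj s (by simp))
    -- normalise the signs
    obtain ⟨f, hf, f1, f2, f3⟩ : ∃ f, Scroll H f ∧ H.ip s f = 1 ∧
        (H.ip v f = 1 ∨ H.ip v f = -1) ∧ (f = t i ∨ f = -t i) := by
      rcases p1 with p | p
      · exact ⟨t i, ht.1 i, p, y1, Or.inl rfl⟩
      · exact ⟨-t i, (ht.1 i).neg, by rw [ip_neg_right, p, neg_neg],
          by rw [ip_neg_right]; omega, Or.inr rfl⟩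
    obtain ⟨g, hg, g1, g2, g3⟩ : ∃ g, Scroll H g ∧ H.ip s g = 1 ∧
        (H.ip v g = 1 ∨ H.ip v g = -1) ∧ (g = t j ∨ g = -t j) := by
      rcases p2 with p | p
      · exact ⟨t j, ht.1 j, p, y2, Or.inl rfl⟩
      · exact ⟨-t j, (ht.1 j).neg, by rw [ip_neg_right, p, neg_neg],
          by rw [ip_neg_right]; omega, Or.inr rfl⟩
    have hfg : f ≠ g ∧ f ≠ -g := by
      obtain ⟨q1, q2⟩ := ht.2 i j hij
      rcases f3 with rfl | rfl <;> rcases g3 with rfl | rfl
      · exact ⟨q1, q2⟩
      · exact ⟨q2, by rwa [neg_neg]⟩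
      · exact ⟨fun h => q2 (by rw [← h, neg_neg]), fun h => q1 (neg_injective h)⟩
      · refine ⟨fun h => q1 (neg_injective h), fun h => q2 ?_⟩
        rw [neg_neg] at h
        rw [← h, neg_neg]
    -- the product of `f` and `g`
    have hfg1 : H.ip f g = 1 ∨ H.ip f g = -1 := by
      rcases f2 with f2 | f2
      · exact (c.six_aux ht ha hb hab hv h6 hf f2 hval hg hfg).1
      · refine (c.six_aux ht ha hb hab (v := -v) hv.neg (by rw [ip_neg_left, ip_neg_right, h6,
          neg_neg]) hf (by rw [ip_neg_left, f2, neg_neg]) (fun k hk => ?_) hg hfg).1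
        rw [ip_neg_left]
        have := hval k hk
        omega
    have hfg2 : H.ip f g = 1 := by
      rcases hfg1 with h | h
      · exact h
      exfalso
      have e1 := z3.1 (c.t3 ht ha hb hab hf hg)
      have e2 := z3.1 (c.t3 ht ha hb hab hs hf)
      have e3 := z3.1 (c.t3 ht ha hb hab hs hg)
      have e4 := z3_sq (c.q3 ht ha hb hs hab).2
      rw [h] at e1
      rw [f1] at e2
      rw [g1] at e3
      push_cast at e1 e2 e3
      have : (1 : ZMod 3) + 1 = 0 := by
        linear_combination e2 + (H.ip a s : ZMod 3) * (H.ip a f : ZMod 3) * e3 - e1 +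
          (H.ip a f : ZMod 3) * (H.ip a g : ZMod 3) * e4
      exact absurd this (by decide)
    have k1 := c.n4 hv hs.prim hf.prim hg.prim 1 (-1) (-1) 1 rfl
    have k2 := c.n4 hv hs.prim hf.prim hg.prim 1 (-1) 1 1 rfl
    have k3 := c.n4 hv hs.prim hf.prim hg.prim 1 (-1) 1 (-1) rfl
    rw [h6, hs.2.2, hf.2.2, hg.2.2, h1, f1, g1, hfg2] at k1 k2 k3
    rcases f2 with f2 | f2 <;> rcases g2 with g2 | g2 <;> rw [f2, g2] at k1 k2 k3 <;> omega
  rcases hval s hs with h | h | h
  · rw [h] at hcon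
    exact hcon (by norm_num)
  · exact key v s hv h6 hs hval h
  · refine key (-v) s hv.neg (by rw [ip_neg_left, ip_neg_right, h6, neg_neg]) hs
      (fun f hf => ?_) (by rw [ip_neg_left, h, neg_neg])
    rw [ip_neg_left]
    have := hval f hf
    omega

/-- two classes of norm six -/
theorem six_six (c : Ctx H) {t : Fin 5 → Fin 23 → ℤ} (ht : Pairs H t) {a b : Fin 23 → ℤ}
    (ha : Scroll H a) (hb : Scroll H b) (hab : H.ip a b = 1) {v w : Fin 23 → ℤ}
    (hv : Prim H v) (hv6 : H.ip v v = 6) (hw : Prim H w) (hw6 : H.ip w w = 6) :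
    H.ip v w % 3 = 0 := by
  by_contra hcon
  have sv := fun {f} (hf : Scroll H f) => c.six ht ha hb hab hv hv6 hf
  have sw := fun {f} (hf : Scroll H f) => c.six ht ha hb hab hw hw6 hf
  have k1 := c.n2 hv hw 1 1
  have k2 := c.n2 hv hw 1 (-1)
  rw [hv6, hw6] at k1 k2
  -- the products with scroll classes vanish
  have zero : ∀ v w : Fin 23 → ℤ, Prim H v → H.ip v v = 6 → H.ip v w % 3 ≠ 0 →
      (∀ f, Scroll H f → H.ip v f % 3 = 0) → (∀ f, Scroll H f → H.ip w f % 3 = 0) →
      ∀ f, Scroll H f → H.ip v f = 0 := by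
    intro v w hv hv6 hvw sv sw f hf
    have h := sv f hf
    rcases c.six_vals hv hv6 hf with e | e | e | e | e
    · exact e
    · omega
    · omega
    · exfalso
      have hg : Scroll H (v - f) := scroll_of (hv.sub hf.prim) (by
        rw [ip_sub_left, ip_sub_right, ip_sub_right, c.hH.comm f v, hf.2.2, hv6, e]
        norm_num)
      have e1 := sw _ hg
      have e2 := sw _ hf
      rw [ip_sub_right] at e1
      rw [c.hH.comm v w] at hvw
      omega
    · exfalso
      have hg : Scroll H (v + f) := scroll_of (hv.add hf.prim) (by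
        rw [ip_add_left, ip_add_right, ip_add_right, c.hH.comm f v, hf.2.2, hv6, e]
        norm_num)
      have e1 := sw _ hg
      have e2 := sw _ hf
      rw [ip_add_right] at e1
      rw [c.hH.comm v w] at hvw
      omega
  have zv := zero v w hv hv6 hcon (fun f hf => sv hf) (fun f hf => sw hf)
  have zw := zero w v hw hw6 (by rwa [c.hH.comm w v]) (fun f hf => sw hf) (fun f hf => sv hf)
  have hp : H.ip v w = 2 ∨ H.ip v w = -2 ∨ H.ip v w = 4 ∨ H.ip v w = -4 := by omega
  rcases hp with h | h | h | h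
  · have k := c.n4 hv hw ha.prim hb.prim 1 (-1) 1 (-1) rfl
    rw [hv6, hw6, ha.2.2, hb.2.2, h, zv a ha, zv b hb, zw a ha, zw b hb, hab] at k
    omega
  · have k := c.n4 hv hw ha.prim hb.prim 1 1 1 (-1) rfl
    rw [hv6, hw6, ha.2.2, hb.2.2, h, zv a ha, zv b hb, zw a ha, zw b hb, hab] at k
    omega
  · have hg : Scroll H (v - w) := scroll_of (hv.sub hw) (by
      rw [ip_sub_left, ip_sub_right, ip_sub_right, c.hH.comm w v, hv6, hw6, h]
      norm_num)
    have := sv hg
    rw [ip_sub_right, hv6, h] at this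
    omega
  · have hg : Scroll H (v + w) := scroll_of (hv.add hw) (by
      rw [ip_add_left, ip_add_right, ip_add_right, c.hH.comm w v, hv6, hw6, h]
      norm_num)
    have := sv hg
    rw [ip_add_right, hv6, h] at this
    omega

/-- there is no class of norm eight -/
theorem eight (c : Ctx H) {t : Fin 5 → Fin 23 → ℤ} (ht : Pairs H t) {a b : Fin 23 → ℤ}
    (ha : Scroll H a) (hb : Scroll H b) (hab : H.ip a b = 1) {v : Fin 23 → ℤ}
    (hv : Prim H v) (h8 : H.ip v v = 8) : False := by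
  have vals : ∀ f, Scroll H f → H.ip v f = 0 ∨ H.ip v f = 2 ∨ H.ip v f = -2 := by
    intro f hf
    have k1 := c.n2 hv hf.prim 1 (-1)
    have k2 := c.n2 hv hf.prim 1 1
    rw [hf.2.2, h8] at k1 k2
    have pos : ∀ f, Scroll H f → H.ip v f ≠ 6 ∧ H.ip v f ≠ 4 ∧ H.ip v f ≠ 3 := by
      intro f hf
      refine ⟨fun h => ?_, fun h => ?_, fun h => ?_⟩
      · have := c.eq_zero (u := v - f) (H.isHodge_sub hv.1 hf.1) (by
          rw [ip_sub_left, ip_sub_right, ip_sub_right, c.hH.comm f v, hf.2.2, h8, h]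
          norm_num)
        rw [sub_eq_zero.1 this, hf.2.2] at h8
        norm_num at h8
      · have hg : Scroll H (v - f) := scroll_of (hv.sub hf.prim) (by
          rw [ip_sub_left, ip_sub_right, ip_sub_right, c.hH.comm f v, hf.2.2, h8, h]
          norm_num)
        have e1 := z3.1 (c.t3 ht ha hb hab hf hg)
        have e0 : H.ip f (v - f) = 0 := by
          rw [ip_sub_right, c.hH.comm f v, h, hf.2.2]
          norm_num
        have e3 := z3_sq (c.q3 ht ha hb hf hab).2
        have e4 := z3_sq (c.q3 ht ha hb hg hab).2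
        rw [e0] at e1
        push_cast at e1
        have e5 : (H.ip a f : ZMod 3) * (H.ip a (v - f) : ZMod 3) = 0 := by
          linear_combination -e1
        have : (1 : ZMod 3) = 0 := by
          linear_combination (H.ip a f : ZMod 3) * (H.ip a (v - f) : ZMod 3) * e5 - e3 -
            (H.ip a f : ZMod 3) * (H.ip a f : ZMod 3) * e4
        exact absurd this (by decide)
      · have := c.six ht ha hb hab (v := v - f) (hv.sub hf.prim) (by
          rw [ip_sub_left, ip_sub_right, ip_sub_right, c.hH.comm f v, hf.2.2, h8, h]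
          norm_num) hf
        rw [ip_sub_left, h, hf.2.2] at this
        norm_num at this
    have p1 := pos f hf
    have p2 := pos (-f) hf.neg
    rw [ip_neg_right] at p2
    omega
  have k1 := c.n3 hv ha.prim hb.prim 1 1 (-1) rfl
  have k2 := c.n3 hv ha.prim hb.prim 1 (-1) (-1) rfl
  have k3 := c.n3 hv ha.prim hb.prim 1 1 1 rfl
  rw [h8, ha.2.2, hb.2.2, hab] at k1 k2 k3
  have key : ∀ v, Prim H v → H.ip v v = 8 → H.ip v a = 2 → H.ip v b = -2 → False := by
    intro v hv h8 h1 h2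
    have h3 : H.ip (v - a + b) (v - a + b) = 6 := by
      simp only [ip_add_left, ip_add_right, ip_sub_left, ip_sub_right, c.hH.comm a v,
        c.hH.comm b v, c.hH.comm b a, h8, h1, h2, hab, ha.2.2, hb.2.2]
      norm_num
    have := c.six ht ha hb hab (v := v - a + b) ((hv.sub ha.prim).add hb.prim) h3 ha
    rw [ip_add_left, ip_sub_left, h1, ha.2.2, c.hH.comm b a, hab] at this
    norm_num at this
  rcases vals a ha with h | h | h <;> rcases vals b hb with h' | h' | h'
  · rw [h, h'] at k1 k2 k3; omega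
  · rw [h, h'] at k1 k2 k3; omega
  · rw [h, h'] at k1 k2 k3; omega
  · rw [h, h'] at k1 k2 k3; omega
  · rw [h, h'] at k1 k2 k3; omega
  · exact key v hv h8 h h'
  · rw [h, h'] at k1 k2 k3; omega
  · exact key (-v) hv.neg (by rw [ip_neg_left, ip_neg_right, h8, neg_neg])
      (by rw [ip_neg_left, h, neg_neg]) (by rw [ip_neg_left, h'])
  · rw [h, h'] at k1 k2 k3; omega

/-- the products of a class of degree one and norm seven with a scroll class -/
theorem seven_vals (c : Ctx H) (hnp : ∀ P, ¬ H.IsPl P) {v f : Fin 23 → ℤ} (hv : H.IsHodge v)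
    (hvh : H.ip v H.h = 1) (h7 : H.ip v v = 7) (hf : Scroll H f) :
    H.ip v f = 0 ∨ H.ip v f = 2 ∨ H.ip v f = -2 := by
  have hd : H.disc v = 20 := by
    unfold disc
    rw [c.hH.comm H.h v, hvh, h7]
    norm_num
  have pos : ∀ f, Scroll H f → H.ip v f ≠ 4 := by
    intro f hf h
    apply hnp (v - f)
    refine ⟨H.isHodge_sub hv hf.1, by rw [ip_sub_left, hvh, hf.2.1, sub_zero], ?_⟩
    rw [ip_sub_left, ip_sub_right, ip_sub_right, c.hH.comm f v, hf.2.2, h7, h]
    norm_num
  have hB : Bf H v f = 3 * H.ip v f := by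
    unfold Bf
    rw [hf.2.1]
    ring
  have hdf : H.disc f = 12 := by
    unfold disc
    rw [c.hH.comm H.h f, hf.2.1, hf.2.2]
    norm_num
  have k1 := c.d2 hv hf.1 1 1 rfl
  have k2 := c.d2 hv hf.1 1 (-1) rfl
  rw [hB, hd, hdf] at k1 k2
  have p1 := pos f hf
  have p2 := pos (-f) hf.neg
  rw [ip_neg_right] at p2
  have e1 : -5 ≤ H.ip v f ∧ H.ip v f ≤ 5 := by omega
  obtain ⟨e1, e2⟩ := e1
  generalize H.ip v f = y at *
  interval_cases y <;> omega

/-- there is no class of degree one and norm seven -/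
theorem seven (c : Ctx H) (hnp : ∀ P, ¬ H.IsPl P) {a b : Fin 23 → ℤ}
    (ha : Scroll H a) (hb : Scroll H b) (hab : H.ip a b = 1) {v : Fin 23 → ℤ}
    (hv : H.IsHodge v) (hvh : H.ip v H.h = 1) (h7 : H.ip v v = 7) : False := by
  have hd : H.disc v = 20 := by
    unfold disc
    rw [c.hH.comm H.h v, hvh, h7]
    norm_num
  have hw : Prim H (a - b) := ha.prim.sub hb.prim
  have hdw : H.disc (a - b) = 18 := by
    unfold disc
    rw [c.hH.comm H.h, hw.2]
    rw [ip_sub_left, ip_sub_right, ip_sub_right, c.hH.comm b a, ha.2.2, hb.2.2, hab]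
    norm_num
  have hB : Bf H v (a - b) = 3 * (H.ip v a - H.ip v b) := by
    unfold Bf
    rw [hw.2, ip_sub_right]
    ring
  have k1 := c.d2 hv hw.1 1 1 rfl
  have k2 := c.d2 hv hw.1 1 (-1) rfl
  rw [hB, hd, hdw] at k1 k2
  rcases c.seven_vals hnp hv hvh h7 ha with h | h | h <;>
    rcases c.seven_vals hnp hv hvh h7 hb with h' | h' | h' <;>
    rw [h, h'] at k1 k2 <;> omega

end Ctx

end Pool.Agent.Run7.h762.SC
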